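import Mathlib

/-!
# MP_6c24cd_co: the graphs

A unit consists of three teeth (`K_{r,r}` minus a matching) and a core; the tooth ends are joined
to the core on one side and to an independent set of vertices of degree `r` on the other side.
-/

namespace Pool.Agent.H24.SC

open Finset

/-- The types: the first `T j` indices of tooth `j`. -/
abbrev Tp (r : ℕ) (T : Fin 3 → ℕ) : Type := {p : Fin 3 × Fin r // (p.2 : ℕ) < T p.1}

/-- The vertices: `a u j i`, `b u j i` are the two sides of tooth `j` of unit `u`, `c u t` are the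
vertices of the core of unit `u`, and `s t x` are the connecting vertices. -/
inductive Vx (U X : Type) (r : ℕ) (T : Fin 3 → ℕ) : Type
  | a (u : U) (j : Fin 3) (i : Fin r) : Vx U X r T
  | b (u : U) (j : Fin 3) (i : Fin r) : Vx U X r T
  | c (u : U) (t : Tp r T) : Vx U X r T
  | s (t : Tp r T) (x : X) : Vx U X r T

/-- The vertex set as a sum. -/
def vxEquiv (U X : Type) (r : ℕ) (T : Fin 3 → ℕ) : Vx U X r T ≃
    (U × Fin 3 × Fin r) ⊕ (U × Fin 3 × Fin r) ⊕ (U × Tp r T) ⊕ (Tp r T × X) where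
  toFun
    | .a u j i => .inl (u, j, i)
    | .b u j i => .inr (.inl (u, j, i))
    | .c u t => .inr (.inr (.inl (u, t)))
    | .s t x => .inr (.inr (.inr (t, x)))
  invFun
    | .inl (u, j, i) => .a u j i
    | .inr (.inl (u, j, i)) => .b u j i
    | .inr (.inr (.inl (u, t))) => .c u t
    | .inr (.inr (.inr (t, x))) => .s t x
  left_inv := by rintro (_ | _ | _ | _) <;> rfl
  right_inv := by rintro (_ | _ | _ | _) <;> rfl

variable {U X : Type} {r : ℕ} {T : Fin 3 → ℕ}

instance [Fintype U] [Fintype X] : Fintype (Vx U X r T) := Fintype.ofEquiv _ (vxEquiv U X r T).symm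

noncomputable instance : DecidableEq (Vx U X r T) := Classical.decEq _

/-- Adjacency. -/
def adj (C : SimpleGraph (Tp r T)) (w : Tp r T → U → X) : Vx U X r T → Vx U X r T → Prop
  | .a u j i, .b u' j' i' => u = u' ∧ j = j' ∧ ¬ (i = i' ∧ (i : ℕ) < T j)
  | .b u j i, .a u' j' i' => u = u' ∧ j = j' ∧ ¬ (i = i' ∧ (i : ℕ) < T j)
  | .b u j i, .c u' t => u = u' ∧ t.1 = (j, i)
  | .c u' t, .b u j i => u = u' ∧ t.1 = (j, i)
  | .c u t, .c u' t' => u = u' ∧ C.Adj t t'
  | .a u j i, .s t x => t.1 = (j, i) ∧ w t u = x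
  | .s t x, .a u j i => t.1 = (j, i) ∧ w t u = x
  | _, _ => False

/-- The graph. -/
def Gr (C : SimpleGraph (Tp r T)) (w : Tp r T → U → X) : SimpleGraph (Vx U X r T) where
  Adj := adj C w
  symm := ⟨by
    rintro (⟨u, j, i⟩ | ⟨u, j, i⟩ | ⟨u, t⟩ | ⟨t, x⟩) (⟨u', j', i'⟩ | ⟨u', j', i'⟩ | ⟨u', t'⟩ | ⟨t', x'⟩) h <;>
      simp only [adj] at h ⊢
    · obtain ⟨rfl, rfl, h⟩ := h
      exact ⟨rfl, rfl, fun h' => h ⟨h'.1.symm, h'.1 ▸ h'.2⟩⟩
    · exact h
    · obtain ⟨rfl, rfl, h⟩ := h
      exact ⟨rfl, rfl, fun h' => h ⟨h'.1.symm, h'.1 ▸ h'.2⟩⟩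
    · exact h
    · exact h
    · exact ⟨h.1.symm, h.2.symm⟩
    · exact h⟩
  loopless := ⟨by
    rintro (⟨u, j, i⟩ | ⟨u, j, i⟩ | ⟨u, t⟩ | ⟨t, x⟩) h <;> simp [adj] at h⟩

/-- The requirements on the core. -/
structure Core (r t0 N : ℕ) (T : Fin 3 → ℕ) (C : SimpleGraph (Tp r T)) : Prop where
  five : 5 ≤ r
  three : 3 ≤ t0
  half : r + 1 ≤ 2 * t0
  T_ge : ∀ j, t0 ≤ T j
  T_le : ∀ j, T j ≤ r
  N_eq : Fintype.card (Tp r T) = N
  N_ge : r + 4 ≤ N
  N_le : N + 1 ≤ 2 * r
  reg : ∀ t, (C.neighborSet t).ncard + 1 = r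
  P1 : ∀ κ : Tp r T → Bool,
    {p : Tp r T × Tp r T | C.Adj p.1 p.2 ∧ κ p.1 = true ∧ κ p.2 = false}.ncard ≤ r →
    (∃ t0, ∀ t, κ t = true → t = t0) ∨ (∃ t0, ∀ t, κ t = false → t = t0)
  P2 : ∀ (Z : Finset (Tp r T)) (δ : Fin 3 → Bool), Z.card < t0 →
    (∀ t t', t ∉ Z → t' ∉ Z → C.Adj t t' → δ t.1.1 = δ t'.1.1) → ∀ j j', δ j = δ j'

/-- The requirements on the windows. -/
structure Win (r : ℕ) (T : Fin 3 → ℕ) (U X : Type) (w : Tp r T → U → X) : Prop where
  fib : ∀ t x, {u | w t u = x}.ncard = r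
  big : ∀ s : Finset U, s.card < r → ∃ u, u ∉ s
  conn : ∀ f : U → Bool, (∀ u u', (∃ i0 : Fin r, ∀ t : Tp r T, t.1.2 ≠ i0 → w t u = w t u') →
    f u = f u') → ∀ u u', f u = f u'

/-- The types of tooth `j`. -/
def col (r : ℕ) (T : Fin 3 → ℕ) (j : Fin 3) : Finset (Tp r T) :=
  univ.filter (fun t => t.1.1 = j)

theorem mem_col {j : Fin 3} {t : Tp r T} : t ∈ col r T j ↔ t.1.1 = j := by
  simp [col]

theorem card_col (j : Fin 3) (h : T j ≤ r) : (col r T j).card = T j := by
  conv_rhs => rw [← card_range (T j)]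
  refine card_bij (fun t _ => (t.1.2 : ℕ)) ?_ ?_ ?_
  · intro t ht
    rw [mem_col] at ht
    rw [mem_range, ← ht]
    exact t.2
  · intro t ht t' ht' heq
    rw [mem_col] at ht ht'
    apply Subtype.ext
    apply Prod.ext
    · rw [ht, ht']
    · exact Fin.ext heq
  · intro n hn
    rw [mem_range] at hn
    exact ⟨⟨(j, ⟨n, lt_of_lt_of_le hn h⟩), hn⟩, mem_col.2 rfl, rfl⟩

/-- the types of tooth `j` whose index differs from `i0` -/
theorem card_col_ne (j : Fin 3) (h : T j ≤ r) (i0 : Fin r) :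
    T j ≤ ((col r T j).filter (fun t => t.1.2 ≠ i0)).card + 1 := by
  have h1 := card_filter_add_card_filter_not (s := col r T j) (fun t => t.1.2 ≠ i0)
  have h2 : ((col r T j).filter (fun t => ¬ t.1.2 ≠ i0)).card ≤ 1 := by
    rw [card_le_one]
    intro t ht t' ht'
    rw [mem_filter, mem_col, not_not] at ht ht'
    exact Subtype.ext (Prod.ext (ht.1.trans ht'.1.symm) (ht.2.trans ht'.2.symm))
  rw [card_col j h] at h1
  omega

/-- the types whose index differs from `i0` -/
theorem card_ne (i0 : Fin r) :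
    Fintype.card (Tp r T) ≤ ((univ : Finset (Tp r T)).filter (fun t => t.1.2 ≠ i0)).card + 3 := by
  have h1 := card_filter_add_card_filter_not (s := (univ : Finset (Tp r T)))
    (fun t => t.1.2 ≠ i0)
  have h2 : ((univ : Finset (Tp r T)).filter (fun t => ¬ t.1.2 ≠ i0)).card ≤ 3 := by
    refine le_trans (card_le_card_of_injOn (t := (univ : Finset (Fin 3))) (fun t => t.1.1)
      (fun _ _ => mem_coe.2 (mem_univ _)) ?_) (by simp)
    intro t ht t' ht' heq
    rw [mem_coe, mem_filter, not_not] at ht ht'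
    exact Subtype.ext (Prod.ext heq (ht.2.trans ht'.2.symm))
  rw [card_univ] at h1
  omega

/-! ### Regularity -/

theorem ncard_nbr {t0 N : ℕ} {C : SimpleGraph (Tp r T)} {w : Tp r T → U → X}
    (hC : Core r t0 N T C) (hw : Win r T U X w) (v : Vx U X r T) :
    ((Gr C w).neighborSet v).ncard = r := by
  have hr := hC.five
  have key : ∀ (i : Fin r) (f : Fin r → Vx U X r T), Function.Injective f →
      (f '' {i' | i' ≠ i}).ncard + 1 = r := by
    intro i f hf
    rw [Set.ncard_image_of_injective _ hf]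
    have : {i' : Fin r | i' ≠ i} = ((univ.erase i : Finset (Fin r)) : Set (Fin r)) := by
      ext x; simp
    rw [this, Set.ncard_coe_finset, card_erase_of_mem (mem_univ _), card_univ, Fintype.card_fin]
    omega
  have key2 : ∀ (f : Fin r → Vx U X r T), Function.Injective f → (f '' Set.univ).ncard = r := by
    intro f hf
    rw [Set.ncard_image_of_injective _ hf, Set.ncard_univ, Nat.card_eq_fintype_card,
      Fintype.card_fin]
  rcases v with ⟨u, j, i⟩ | ⟨u, j, i⟩ | ⟨u, t⟩ | ⟨t, x⟩
  · have hinj : Function.Injective (fun i' : Fin r => (Vx.b u j i' : Vx U X r T)) := by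
      intro x y h
      simpa using h
    by_cases hi : (i : ℕ) < T j
    · have : (Gr C w).neighborSet (.a u j i) = insert (.s ⟨(j, i), hi⟩ (w ⟨(j, i), hi⟩ u))
          ((fun i' : Fin r => (Vx.b u j i' : Vx U X r T)) '' {i' | i' ≠ i}) := by
        ext v
        rw [SimpleGraph.mem_neighborSet]
        rcases v with ⟨u', j', i'⟩ | ⟨u', j', i'⟩ | ⟨u', t'⟩ | ⟨t', x'⟩
        · simp [Gr, adj]
        · simp only [Gr, adj, Set.mem_insert_iff, Set.mem_image, Set.mem_ofPred_eq, reduceCtorEq,
            false_or, Vx.b.injEq]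
          constructor
          · rintro ⟨rfl, rfl, h⟩
            exact ⟨i', fun h' => h ⟨h'.symm, hi⟩, rfl, rfl, rfl⟩
          · rintro ⟨i'', h1, rfl, rfl, rfl⟩
            exact ⟨rfl, rfl, fun h' => h1 h'.1.symm⟩
        · simp [Gr, adj]
        · simp only [Gr, adj, Set.mem_insert_iff, Set.mem_image, Set.mem_ofPred_eq, reduceCtorEq,
            and_false, exists_false, or_false, Vx.s.injEq]
          constructor
          · rintro ⟨h1, rfl⟩
            have : t' = ⟨(j, i), hi⟩ := Subtype.ext h1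
            subst this
            exact ⟨rfl, rfl⟩
          · rintro ⟨rfl, rfl⟩
            exact ⟨rfl, rfl⟩
      rw [this, Set.ncard_insert_of_notMem]
      · exact key i _ hinj
      · simp
    · have : (Gr C w).neighborSet (.a u j i) =
          ((fun i' : Fin r => (Vx.b u j i' : Vx U X r T)) '' Set.univ) := by
        ext v
        rw [SimpleGraph.mem_neighborSet]
        rcases v with ⟨u', j', i'⟩ | ⟨u', j', i'⟩ | ⟨u', t'⟩ | ⟨t', x'⟩
        · simp [Gr, adj]
        · simp only [Gr, adj, Set.mem_image, Vx.b.injEq, Set.mem_univ, true_and]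
          constructor
          · rintro ⟨rfl, rfl, h⟩
            exact ⟨i', rfl, rfl, rfl⟩
          · rintro ⟨i'', rfl, rfl, rfl⟩
            exact ⟨rfl, rfl, fun h' => hi h'.2⟩
        · simp [Gr, adj]
        · simp only [Gr, adj, Set.mem_image, reduceCtorEq, and_false, exists_false, iff_false,
            not_and]
          intro h1
          exact absurd (by have := t'.2; rw [h1] at this; exact this) hi
      rw [this]
      exact key2 _ hinj
  · have hinj : Function.Injective (fun i' : Fin r => (Vx.a u j i' : Vx U X r T)) := by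
      intro x y h
      simpa using h
    by_cases hi : (i : ℕ) < T j
    · have : (Gr C w).neighborSet (.b u j i) = insert (.c u ⟨(j, i), hi⟩)
          ((fun i' : Fin r => (Vx.a u j i' : Vx U X r T)) '' {i' | i' ≠ i}) := by
        ext v
        rw [SimpleGraph.mem_neighborSet]
        rcases v with ⟨u', j', i'⟩ | ⟨u', j', i'⟩ | ⟨u', t'⟩ | ⟨t', x'⟩
        · simp only [Gr, adj, Set.mem_insert_iff, Set.mem_image, Set.mem_ofPred_eq, reduceCtorEq,
            false_or, Vx.a.injEq]
          constructor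
          · rintro ⟨rfl, rfl, h⟩
            exact ⟨i', fun h' => h ⟨h'.symm, hi⟩, rfl, rfl, rfl⟩
          · rintro ⟨i'', h1, rfl, rfl, rfl⟩
            exact ⟨rfl, rfl, fun h' => h1 h'.1.symm⟩
        · simp [Gr, adj]
        · simp only [Gr, adj, Set.mem_insert_iff, Set.mem_image, Set.mem_ofPred_eq, reduceCtorEq,
            and_false, exists_false, or_false, Vx.c.injEq]
          constructor
          · rintro ⟨rfl, h1⟩
            exact ⟨rfl, Subtype.ext h1⟩
          · rintro ⟨rfl, rfl⟩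
            exact ⟨rfl, rfl⟩
        · simp [Gr, adj]
      rw [this, Set.ncard_insert_of_notMem]
      · exact key i _ hinj
      · simp
    · have : (Gr C w).neighborSet (.b u j i) =
          ((fun i' : Fin r => (Vx.a u j i' : Vx U X r T)) '' Set.univ) := by
        ext v
        rw [SimpleGraph.mem_neighborSet]
        rcases v with ⟨u', j', i'⟩ | ⟨u', j', i'⟩ | ⟨u', t'⟩ | ⟨t', x'⟩
        · simp only [Gr, adj, Set.mem_image, Vx.a.injEq, Set.mem_univ, true_and]
          constructor
          · rintro ⟨rfl, rfl, h⟩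
            exact ⟨i', rfl, rfl, rfl⟩
          · rintro ⟨i'', rfl, rfl, rfl⟩
            exact ⟨rfl, rfl, fun h' => hi h'.2⟩
        · simp [Gr, adj]
        · simp only [Gr, adj, Set.mem_image, reduceCtorEq, and_false, exists_false, iff_false,
            not_and]
          intro _ h1
          exact absurd (by have := t'.2; rw [h1] at this; exact this) hi
        · simp [Gr, adj]
      rw [this]
      exact key2 _ hinj
  · have : (Gr C w).neighborSet (.c u t) = insert (.b u t.1.1 t.1.2)
        ((fun t' : Tp r T => (Vx.c u t' : Vx U X r T)) '' C.neighborSet t) := by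
      ext v
      rw [SimpleGraph.mem_neighborSet]
      rcases v with ⟨u', j', i'⟩ | ⟨u', j', i'⟩ | ⟨u', t'⟩ | ⟨t', x'⟩
      · simp [Gr, adj]
      · simp only [Gr, adj, Set.mem_insert_iff, Set.mem_image, reduceCtorEq, and_false,
          exists_false, or_false, Vx.b.injEq]
        constructor
        · rintro ⟨rfl, h⟩
          rw [h]
          exact ⟨rfl, rfl, rfl⟩
        · rintro ⟨rfl, rfl, rfl⟩
          exact ⟨rfl, rfl⟩
      · simp only [Gr, adj, Set.mem_insert_iff, Set.mem_image, reduceCtorEq, false_or, Vx.c.injEq]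
        constructor
        · rintro ⟨rfl, h⟩
          exact ⟨t', h, rfl, rfl⟩
        · rintro ⟨t'', h, rfl, rfl⟩
          exact ⟨rfl, h⟩
      · simp [Gr, adj]
    rw [this, Set.ncard_insert_of_notMem, Set.ncard_image_of_injective]
    · exact hC.reg t
    · intro x y h
      simpa using h
    · simp
  · have : (Gr C w).neighborSet (.s t x) =
        ((fun u : U => (Vx.a u t.1.1 t.1.2 : Vx U X r T)) '' {u | w t u = x}) := by
      ext v
      rw [SimpleGraph.mem_neighborSet]
      rcases v with ⟨u', j', i'⟩ | ⟨u', j', i'⟩ | ⟨u', t'⟩ | ⟨t', x'⟩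
      · simp only [Gr, adj, Set.mem_image, Set.mem_ofPred_eq, Vx.a.injEq]
        constructor
        · rintro ⟨h, rfl⟩
          rw [h]
          exact ⟨u', rfl, rfl, rfl, rfl⟩
        · rintro ⟨u, h, rfl, rfl, rfl⟩
          exact ⟨rfl, h⟩
      · simp [Gr, adj]
      · simp [Gr, adj]
      · simp [Gr, adj]
    rw [this, Set.ncard_image_of_injective, hw.fib]
    intro x y h
    simpa using h

end Pool.Agent.H24.SC
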