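import Pool.Agent.H24.SC.Basic

/-!
# MP_6c24cd_co: the length of a cycle
-/

set_option autoImplicit false

namespace Pool.Agent.H24.SC

open Finset

variable {U X : Type} {r t0 N : ℕ} {T : Fin 3 → ℕ} {C : SimpleGraph (Tp r T)} {w : Tp r T → U → X}

/-- a sum over all vertices -/
theorem cycA_sum [Fintype U] [Fintype X] (f : Vx U X r T → ℕ) : ∑ y, f y =
    ∑ u, ∑ j, ∑ i, f (.a u j i) + ∑ u, ∑ j, ∑ i, f (.b u j i) + ∑ u, ∑ t, f (.c u t) +
      ∑ t, ∑ x, f (.s t x) := by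
  rw [← (vxEquiv U X r T).symm.sum_comp f, Fintype.sum_sum_type, Fintype.sum_sum_type,
    Fintype.sum_sum_type]
  simp only [Fintype.sum_prod_type]
  have h1 : ∀ u j i, (vxEquiv U X r T).symm (Sum.inl (u, j, i)) = .a u j i := fun _ _ _ => rfl
  have h2 : ∀ u j i, (vxEquiv U X r T).symm (Sum.inr (Sum.inl (u, j, i))) = .b u j i :=
    fun _ _ _ => rfl
  have h3 : ∀ u t, (vxEquiv U X r T).symm (Sum.inr (Sum.inr (Sum.inl (u, t)))) = .c u t :=
    fun _ _ => rfl
  have h4 : ∀ t x, (vxEquiv U X r T).symm (Sum.inr (Sum.inr (Sum.inr (t, x)))) = .s t x :=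
    fun _ _ => rfl
  simp only [h1, h2, h3, h4]
  ring

section

variable [Fintype U] [Fintype X] {δ : Vx U X r T → Vx U X r T → ℕ}

theorem cycA_deg_a (hδ : ∀ x y, ¬ (Gr C w).Adj x y → δ x y = 0) (u : U) (j : Fin 3) (i : Fin r) :
    ∑ y, δ (.a u j i) y = ∑ i', δ (.a u j i) (.b u j i') + ∑ t, δ (.a u j i) (.s t (w t u)) := by
  classical
  rw [cycA_sum]
  have h1 : ∑ u', ∑ j', ∑ i', δ (.a u j i) (.a u' j' i') = 0 :=
    sum_eq_zero fun u' _ => sum_eq_zero fun j' _ => sum_eq_zero fun i' _ =>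
      hδ _ _ (by simp [Gr, adj])
  have h2 : ∑ u', ∑ j', ∑ i', δ (.a u j i) (.b u' j' i') = ∑ i', δ (.a u j i) (.b u j i') := by
    rw [Fintype.sum_eq_single u, Fintype.sum_eq_single j]
    · intro j' hj'
      exact sum_eq_zero fun i' _ => hδ _ _ fun h => hj' h.2.1.symm
    · intro u' hu'
      exact sum_eq_zero fun j' _ => sum_eq_zero fun i' _ => hδ _ _ fun h => hu' h.1.symm
  have h3 : ∑ u', ∑ t, δ (.a u j i) (.c u' t) = 0 :=
    sum_eq_zero fun u' _ => sum_eq_zero fun t _ => hδ _ _ (by simp [Gr, adj])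
  have h4 : ∑ t, ∑ x, δ (.a u j i) (.s t x) = ∑ t, δ (.a u j i) (.s t (w t u)) := by
    apply sum_congr rfl
    intro t _
    rw [Fintype.sum_eq_single (w t u)]
    intro x hx
    exact hδ _ _ fun h => hx h.2.symm
  rw [h1, h2, h3, h4]
  ring

theorem cycA_deg_b (hδ : ∀ x y, ¬ (Gr C w).Adj x y → δ x y = 0) (u : U) (j : Fin 3) (i : Fin r) :
    ∑ y, δ (.b u j i) y = ∑ i', δ (.b u j i) (.a u j i') + ∑ t, δ (.b u j i) (.c u t) := by
  classical
  rw [cycA_sum]
  have h1 : ∑ u', ∑ j', ∑ i', δ (.b u j i) (.b u' j' i') = 0 :=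
    sum_eq_zero fun u' _ => sum_eq_zero fun j' _ => sum_eq_zero fun i' _ =>
      hδ _ _ (by simp [Gr, adj])
  have h2 : ∑ u', ∑ j', ∑ i', δ (.b u j i) (.a u' j' i') = ∑ i', δ (.b u j i) (.a u j i') := by
    rw [Fintype.sum_eq_single u, Fintype.sum_eq_single j]
    · intro j' hj'
      exact sum_eq_zero fun i' _ => hδ _ _ fun h => hj' h.2.1.symm
    · intro u' hu'
      exact sum_eq_zero fun j' _ => sum_eq_zero fun i' _ => hδ _ _ fun h => hu' h.1.symm
  have h3 : ∑ u', ∑ t, δ (.b u j i) (.c u' t) = ∑ t, δ (.b u j i) (.c u t) := by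
    rw [Fintype.sum_eq_single u]
    intro u' hu'
    exact sum_eq_zero fun t _ => hδ _ _ fun h => hu' h.1.symm
  have h4 : ∑ t, ∑ x, δ (.b u j i) (.s t x) = 0 :=
    sum_eq_zero fun t _ => sum_eq_zero fun x _ => hδ _ _ (by simp [Gr, adj])
  rw [h1, h2, h3, h4]
  ring

theorem cycA_deg_c (hδ : ∀ x y, ¬ (Gr C w).Adj x y → δ x y = 0) (u : U) (t : Tp r T) :
    ∑ y, δ (.c u t) y = ∑ j, ∑ i, δ (.c u t) (.b u j i) + ∑ t', δ (.c u t) (.c u t') := by
  classical
  rw [cycA_sum]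
  have h1 : ∑ u', ∑ j', ∑ i', δ (.c u t) (.a u' j' i') = 0 :=
    sum_eq_zero fun u' _ => sum_eq_zero fun j' _ => sum_eq_zero fun i' _ =>
      hδ _ _ (by simp [Gr, adj])
  have h2 : ∑ u', ∑ j', ∑ i', δ (.c u t) (.b u' j' i') = ∑ j', ∑ i', δ (.c u t) (.b u j' i') := by
    rw [Fintype.sum_eq_single u]
    intro u' hu'
    exact sum_eq_zero fun j' _ => sum_eq_zero fun i' _ => hδ _ _ fun h => hu' h.1
  have h3 : ∑ u', ∑ t', δ (.c u t) (.c u' t') = ∑ t', δ (.c u t) (.c u t') := by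
    rw [Fintype.sum_eq_single u]
    intro u' hu'
    exact sum_eq_zero fun t _ => hδ _ _ fun h => hu' h.1.symm
  have h4 : ∑ t', ∑ x, δ (.c u t) (.s t' x) = 0 :=
    sum_eq_zero fun t _ => sum_eq_zero fun x _ => hδ _ _ (by simp [Gr, adj])
  rw [h1, h2, h3, h4]
  ring

theorem cycA_even {α : Type} [Fintype α] (f : α → α → ℕ) (h1 : ∀ x y, f x y ≤ 1)
    (h2 : ∀ x y, f x y = f y x) (h3 : ∀ x, f x x = 0) : Even (∑ x, ∑ y, f x y) := by
  classical
  obtain ⟨H, hH⟩ : ∃ H : SimpleGraph α, ∀ x y, H.Adj x y ↔ f x y = 1 := by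
    refine ⟨⟨fun x y => f x y = 1, ⟨fun x y h => by rw [h2]; exact h⟩,
      ⟨fun x h => by rw [h3] at h; omega⟩⟩, fun x y => Iff.rfl⟩
  have h4 : ∀ x, ∑ y, f x y = H.degree x := by
    intro x
    rw [← SimpleGraph.card_neighborFinset_eq_degree, SimpleGraph.neighborFinset_eq_filter,
      card_filter]
    apply sum_congr rfl
    intro y _
    have := h1 x y
    by_cases h : f x y = 1
    · rw [if_pos ((hH x y).mpr h), h]
    · rw [if_neg (fun h' => h ((hH x y).mp h'))]
      omega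
  rw [sum_congr rfl fun x _ => h4 x, H.sum_degrees_eq_twice_card_edges]
  exact even_two_mul _

/-- the number of cycle edges from a covered unit to the connecting vertices -/
theorem cycA_four (hC : Core r t0 N T C) (hδ : ∀ x y, ¬ (Gr C w).Adj x y → δ x y = 0)
    (hs : ∀ x y, δ x y = δ y x) (hle : ∀ x y, δ x y ≤ 1) (S : Finset (Vx U X r T))
    (hdeg : ∀ x ∈ S, ∑ y, δ x y = 2)
    (hconn : ∀ K : Set (Vx U X r T), (∀ x ∈ K, ∀ y, δ x y ≠ 0 → y ∈ K) → ∀ x ∈ S, x ∈ K →
      ∀ y ∈ S, y ∈ K) (u : U) (hu1 : ∀ j i, .a u j i ∈ S) (hu2 : ∀ j i, .b u j i ∈ S)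
    (hu3 : ∀ t, .c u t ∈ S) :
    4 ≤ ∑ j, ∑ i, ∑ t, δ (.a u j i) (.s t (w t u)) := by
  classical
  have hr := hC.five
  obtain ⟨α, hα⟩ : ∃ α : Fin 3 → ℕ, ∀ j, α j = ∑ i, ∑ t, δ (.a u j i) (.s t (w t u)) :=
    ⟨_, fun _ => rfl⟩
  obtain ⟨β, hβ⟩ : ∃ β : Fin 3 → ℕ, ∀ j, β j = ∑ i, ∑ t, δ (.b u j i) (.c u t) :=
    ⟨_, fun _ => rfl⟩
  have hab : ∀ j, α j = β j := by
    intro j
    have e1 : ∑ i, ∑ y, δ (.a u j i) y = 2 * r := by
      rw [sum_congr rfl fun i _ => hdeg _ (hu1 j i), sum_const, card_univ, Fintype.card_fin,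
        smul_eq_mul, mul_comm]
    have e2 : ∑ i, ∑ y, δ (.b u j i) y = 2 * r := by
      rw [sum_congr rfl fun i _ => hdeg _ (hu2 j i), sum_const, card_univ, Fintype.card_fin,
        smul_eq_mul, mul_comm]
    rw [sum_congr rfl fun i _ => cycA_deg_a hδ u j i, sum_add_distrib, ← hα] at e1
    rw [sum_congr rfl fun i _ => cycA_deg_b hδ u j i, sum_add_distrib, ← hβ] at e2
    have e3 : ∑ i, ∑ i', δ (.a u j i) (.b u j i') = ∑ i, ∑ i', δ (.b u j i) (.a u j i') := by
      rw [sum_comm]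
      exact sum_congr rfl fun i _ => sum_congr rfl fun i' _ => hs _ _
    omega
  have hpos : ∀ j, 1 ≤ β j := by
    intro j
    by_contra hcon
    have hb0 : β j = 0 := by omega
    have ha0 : α j = 0 := by rw [hab]; exact hb0
    rw [hβ] at hb0
    rw [hα] at ha0
    have hb1 : ∀ i t, δ (.b u j i) (.c u t) = 0 := by
      intro i t
      have h1 := sum_eq_zero_iff.mp hb0 i (mem_univ _)
      exact sum_eq_zero_iff.mp h1 t (mem_univ _)
    have ha1 : ∀ i t, δ (.a u j i) (.s t (w t u)) = 0 := by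
      intro i t
      have h1 := sum_eq_zero_iff.mp ha0 i (mem_univ _)
      exact sum_eq_zero_iff.mp h1 t (mem_univ _)
    have hclosed : ∀ x ∈ {x : Vx U X r T | (∃ i, x = .a u j i) ∨ ∃ i, x = .b u j i},
        ∀ y, δ x y ≠ 0 → y ∈ {x : Vx U X r T | (∃ i, x = .a u j i) ∨ ∃ i, x = .b u j i} := by
      rintro x (⟨i, rfl⟩ | ⟨i, rfl⟩) y hy
      · have hadj : (Gr C w).Adj (.a u j i) y := by
          by_contra h
          exact hy (hδ _ _ h)
        rcases y with ⟨u', j', i'⟩ | ⟨u', j', i'⟩ | ⟨u', t'⟩ | ⟨t', x'⟩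
        · exact absurd hadj (by simp [Gr, adj])
        · obtain ⟨rfl, rfl, -⟩ := hadj
          exact Or.inr ⟨i', rfl⟩
        · exact absurd hadj (by simp [Gr, adj])
        · obtain ⟨-, rfl⟩ := hadj
          exact absurd (ha1 i t') hy
      · have hadj : (Gr C w).Adj (.b u j i) y := by
          by_contra h
          exact hy (hδ _ _ h)
        rcases y with ⟨u', j', i'⟩ | ⟨u', j', i'⟩ | ⟨u', t'⟩ | ⟨t', x'⟩
        · obtain ⟨rfl, rfl, -⟩ := hadj
          exact Or.inl ⟨i', rfl⟩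
        · exact absurd hadj (by simp [Gr, adj])
        · obtain ⟨rfl, -⟩ := hadj
          exact absurd (hb1 i t') hy
        · exact absurd hadj (by simp [Gr, adj])
    have hT : 0 < T 0 := by
      have := hC.T_ge 0
      have := hC.three
      omega
    have ht : (⟨(0, ⟨0, by omega⟩), hT⟩ : Tp r T) = ⟨(0, ⟨0, by omega⟩), hT⟩ := rfl
    have h5 := hconn _ hclosed (.a u j ⟨0, by omega⟩) (hu1 _ _) (Or.inl ⟨_, rfl⟩)
      (.c u ⟨(0, ⟨0, by omega⟩), hT⟩) (hu3 _)
    rcases h5 with ⟨i, hi⟩ | ⟨i, hi⟩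
    · exact absurd hi (by simp)
    · exact absurd hi (by simp)
  have hsum : ∑ j, β j + ∑ t, ∑ t', δ (.c u t) (.c u t') = 2 * N := by
    have e1 : ∑ t, ∑ y, δ (.c u t) y = 2 * N := by
      rw [sum_congr rfl fun t _ => hdeg _ (hu3 t), sum_const, card_univ, hC.N_eq, smul_eq_mul,
        mul_comm]
    rw [sum_congr rfl fun t _ => cycA_deg_c hδ u t, sum_add_distrib] at e1
    have e2 : ∑ j, β j = ∑ t, ∑ j, ∑ i, δ (.c u t) (.b u j i) := by
      rw [sum_comm]
      apply sum_congr rfl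
      intro j _
      rw [hβ, sum_comm]
      exact sum_congr rfl fun t _ => sum_congr rfl fun i _ => hs _ _
    rw [e2]
    exact e1
  have heven : Even (∑ t, ∑ t', δ (.c u t) (.c u t')) := by
    apply cycA_even (fun t t' => δ (.c u t) (.c u t')) (fun _ _ => hle _ _) (fun _ _ => hs _ _)
    intro t
    apply hδ
    intro h
    exact (Gr C w).loopless.irrefl _ h
  have hb3 : ∑ j, β j = β 0 + β 1 + β 2 := Fin.sum_univ_three β
  have p0 := hpos 0
  have p1 := hpos 1
  have p2 := hpos 2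
  have h4 : 4 ≤ ∑ j, β j := by
    obtain ⟨k, hk⟩ := heven
    rw [hk] at hsum
    omega
  calc 4 ≤ ∑ j, β j := h4
    _ = ∑ j, α j := sum_congr rfl fun j _ => (hab j).symm
    _ = _ := sum_congr rfl fun j _ => hα j

theorem cycA_main (hC : Core r t0 N T C) (hw : Win r T U X w)
    (hδ : ∀ x y, ¬ (Gr C w).Adj x y → δ x y = 0)
    (hs : ∀ x y, δ x y = δ y x) (hle : ∀ x y, δ x y ≤ 1) (S : Finset (Vx U X r T))
    (hdeg : ∀ x ∈ S, ∑ y, δ x y = 2) (hdeg2 : ∀ x, ∑ y, δ x y ≤ 2)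
    (hconn : ∀ K : Set (Vx U X r T), (∀ x ∈ K, ∀ y, δ x y ≠ 0 → y ∈ K) → ∀ x ∈ S, x ∈ K →
      ∀ y ∈ S, y ∈ K) :
    2 * S.card + Fintype.card X ≤ 2 * Fintype.card (Vx U X r T) := by
  classical
  obtain ⟨cov, hcov⟩ : ∃ cov : Finset U, cov = univ.filter (fun u => (∀ j i, .a u j i ∈ S) ∧
    (∀ j i, .b u j i ∈ S) ∧ ∀ t, .c u t ∈ S) := ⟨_, rfl⟩
  -- covered units
  have h1 : 4 * cov.card ≤ 2 * (N * Fintype.card X) := by
    have e1 : ∑ u ∈ cov, 4 ≤ ∑ u ∈ cov, ∑ j, ∑ i, ∑ t, δ (.a u j i) (.s t (w t u)) := by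
      apply sum_le_sum
      intro u hu
      rw [hcov, mem_filter] at hu
      exact cycA_four hC hδ hs hle S hdeg hconn u hu.2.1 hu.2.2.1 hu.2.2.2
    have e2 : ∑ u ∈ cov, ∑ j, ∑ i, ∑ t, δ (.a u j i) (.s t (w t u)) ≤
        ∑ u, ∑ j, ∑ i, ∑ t, δ (.a u j i) (.s t (w t u)) :=
      sum_le_sum_of_subset (subset_univ _)
    have e3 : ∑ u, ∑ j, ∑ i, ∑ t, δ (.a u j i) (.s t (w t u)) ≤
        ∑ t, ∑ x, ∑ u, ∑ j, ∑ i, δ (.s t x) (.a u j i) := by
      calc ∑ u, ∑ j, ∑ i, ∑ t, δ (.a u j i) (.s t (w t u))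
          ≤ ∑ u, ∑ j, ∑ i, ∑ t, ∑ x, δ (.s t x) (.a u j i) := by
            apply sum_le_sum; intro u _
            apply sum_le_sum; intro j _
            apply sum_le_sum; intro i _
            apply sum_le_sum; intro t _
            rw [hs]
            exact single_le_sum (f := fun x => δ (.s t x) (.a u j i)) (fun _ _ => Nat.zero_le _)
              (mem_univ (w t u))
        _ = ∑ u, ∑ j, ∑ t, ∑ i, ∑ x, δ (.s t x) (.a u j i) :=
            sum_congr rfl fun u _ => sum_congr rfl fun j _ => sum_comm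
        _ = ∑ u, ∑ t, ∑ j, ∑ i, ∑ x, δ (.s t x) (.a u j i) :=
            sum_congr rfl fun u _ => sum_comm
        _ = ∑ t, ∑ u, ∑ j, ∑ i, ∑ x, δ (.s t x) (.a u j i) := sum_comm
        _ = ∑ t, ∑ u, ∑ j, ∑ x, ∑ i, δ (.s t x) (.a u j i) :=
            sum_congr rfl fun t _ => sum_congr rfl fun u _ => sum_congr rfl fun j _ => sum_comm
        _ = ∑ t, ∑ u, ∑ x, ∑ j, ∑ i, δ (.s t x) (.a u j i) :=
            sum_congr rfl fun t _ => sum_congr rfl fun u _ => sum_comm
        _ = ∑ t, ∑ x, ∑ u, ∑ j, ∑ i, δ (.s t x) (.a u j i) :=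
            sum_congr rfl fun t _ => sum_comm
    have e4 : ∑ t, ∑ x, ∑ u, ∑ j, ∑ i, δ (.s t x) (.a u j i) ≤ 2 * (N * Fintype.card X) := by
      calc ∑ t, ∑ x, ∑ u, ∑ j, ∑ i, δ (.s t x) (.a u j i)
          ≤ ∑ t : Tp r T, ∑ x : X, 2 := by
            apply sum_le_sum; intro t _
            apply sum_le_sum; intro x _
            refine le_trans ?_ (hdeg2 (.s t x))
            rw [cycA_sum (fun y => δ (.s t x) y)]
            omega
        _ = 2 * (N * Fintype.card X) := by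
            rw [sum_const, sum_const, card_univ, card_univ, hC.N_eq, smul_eq_mul, smul_eq_mul]
            ring
    rw [sum_const, smul_eq_mul] at e1
    omega
  -- the number of units
  have h2 : Fintype.card U = r * Fintype.card X := by
    have hN : 0 < Fintype.card (Tp r T) := by
      rw [hC.N_eq]
      have := hC.N_ge
      omega
    obtain ⟨t⟩ := Fintype.card_pos_iff.mp hN
    have e1 : Fintype.card U = ∑ x : X, (univ.filter (fun u => w t u = x)).card := by
      rw [← card_univ]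
      exact card_eq_sum_card_fiberwise (fun u _ => mem_coe.2 (mem_univ (w t u)))
    have e2 : ∀ x : X, (univ.filter (fun u => w t u = x)).card = r := by
      intro x
      rw [← hw.fib t x, ← Set.ncard_coe_finset]
      congr 1
      ext u
      simp
    rw [e1, sum_congr rfl fun x _ => e2 x, sum_const, card_univ, smul_eq_mul, mul_comm]
  -- uncovered units
  have h3 : S.card + (univ \ cov).card ≤ Fintype.card (Vx U X r T) := by
    have hex : ∀ u ∈ univ \ cov, ∃ y ∈ Sᶜ, ((∃ j i, y = .a u j i) ∨ (∃ j i, y = .b u j i) ∨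
        ∃ t, y = .c u t) := by
      intro u hu
      rw [mem_sdiff, hcov, mem_filter] at hu
      by_contra hcon
      push Not at hcon
      apply hu.2
      refine ⟨mem_univ _, ?_, ?_, ?_⟩
      · intro j i
        by_contra h
        exact (hcon _ (mem_compl.mpr h)).1 j i rfl
      · intro j i
        by_contra h
        exact (hcon _ (mem_compl.mpr h)).2.1 j i rfl
      · intro t
        by_contra h
        exact (hcon _ (mem_compl.mpr h)).2.2 t rfl
    have hcard : (univ \ cov).card ≤ Sᶜ.card := by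
      rcases (univ \ cov).eq_empty_or_nonempty with hemp | ⟨u0, hu0⟩
      · rw [hemp, card_empty]
        exact Nat.zero_le _
      obtain ⟨y0, -⟩ := hex u0 hu0
      have hne : Nonempty (Vx U X r T) := ⟨y0⟩
      choose! g hg1 hg2 using hex
      apply card_le_card_of_injOn g (fun u hu => hg1 u hu)
      intro u hu u' hu' heq
      have a1 := hg2 u hu
      have a2 := hg2 u' hu'
      rw [← heq] at a2
      rcases a1 with ⟨j, i, h⟩ | ⟨j, i, h⟩ | ⟨t, h⟩ <;>
        rcases a2 with ⟨j', i', h'⟩ | ⟨j', i', h'⟩ | ⟨t', h'⟩ <;>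
        rw [h] at h' <;> simp at h' <;> first | exact h'.1 | exact h'
    have := card_add_card_compl S
    omega
  have h4 : (univ \ cov).card + cov.card = Fintype.card U := by
    rw [← card_univ]
    exact card_sdiff_add_card_eq_card (subset_univ _)
  have h5 := hC.N_le
  rw [h2] at h4
  have h6 : N * Fintype.card X + Fintype.card X ≤ 2 * (r * Fintype.card X) := by
    nlinarith
  omega

end

theorem cyc_bound [Fintype U] [Fintype X] (hC : Core r t0 N T C) (hw : Win r T U X w)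
    (v : Vx U X r T) (p : (Gr C w).Walk v v) (hp : p.IsCycle) :
    2 * p.length + Fintype.card X ≤ 2 * Fintype.card (Vx U X r T) := by
  classical
  obtain ⟨δ, hδdef⟩ : ∃ δ : Vx U X r T → Vx U X r T → ℕ, ∀ x y,
      δ x y = if p.toSubgraph.Adj x y then 1 else 0 := ⟨_, fun _ _ => rfl⟩
  obtain ⟨S, hS⟩ : ∃ S : Finset (Vx U X r T), ∀ x, x ∈ S ↔ x ∈ p.support :=
    ⟨p.support.toFinset, fun x => List.mem_toFinset⟩
  have hlen : p.length ≤ S.card := by
    have h1 : p.support.tail.toFinset ⊆ S := by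
      intro x hx
      rw [List.mem_toFinset] at hx
      exact (hS x).mpr (List.mem_of_mem_tail hx)
    have h2 := card_le_card h1
    rw [List.toFinset_card_of_nodup hp.support_nodup, List.length_tail,
      SimpleGraph.Walk.length_support] at h2
    omega
  have hsum : ∀ x, ∑ y, δ x y = (p.toSubgraph.neighborSet x).ncard := by
    intro x
    simp only [hδdef]
    rw [← card_filter, ← Set.ncard_coe_finset]
    congr 1
    ext y
    simp
  have hzero : ∀ x, x ∉ S → ∀ y, δ x y = 0 := by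
    intro x hx y
    rw [hδdef, if_neg]
    intro h
    exact hx ((hS x).mpr (SimpleGraph.Walk.mem_support_of_adj_toSubgraph h))
  have hdeg : ∀ x ∈ S, ∑ y, δ x y = 2 := by
    intro x hx
    rw [hsum]
    exact hp.ncard_neighborSet_toSubgraph_eq_two ((hS x).mp hx)
  have hkey := cycA_main (δ := δ) hC hw
    (fun x y h => by
      rw [hδdef, if_neg]
      exact fun h' => h h'.adj_sub)
    (fun x y => by
      rw [hδdef, hδdef]
      congr 1
      exact propext ⟨fun h => h.symm, fun h => h.symm⟩)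
    (fun x y => by
      rw [hδdef]
      split_ifs <;> omega) S hdeg
    (fun x => by
      by_cases hx : x ∈ S
      · exact (hdeg x hx).le
      · rw [sum_eq_zero fun y _ => hzero x hx y]
        omega)
    (by
      intro K hK x hx hxK y hy
      by_contra hyK
      obtain ⟨-, hwalk⟩ := (SimpleGraph.Subgraph.connected_iff_forall_exists_walk_subgraph
        p.toSubgraph).mp p.toSubgraph_connected
      obtain ⟨q, hq⟩ := hwalk (u := x) (v := y) (p.mem_verts_toSubgraph.mpr ((hS x).mp hx))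
        (p.mem_verts_toSubgraph.mpr ((hS y).mp hy))
      obtain ⟨d, hd, hd1, hd2⟩ := q.exists_boundary_dart K hxK hyK
      apply hd2
      apply hK d.fst hd1
      rw [hδdef, if_pos]
      · exact one_ne_zero
      · apply hq.2
        rw [SimpleGraph.Walk.adj_toSubgraph_iff_mem_edges]
        exact List.mem_map_of_mem hd)
  omega

end Pool.Agent.H24.SC
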