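import Pool.Agent.H24.SC.Basic

/-!
# MP_6c24cd_co: small edge cuts
-/

namespace Pool.Agent.H24.SC

open Finset

/-! ### One tooth -/

theorem tooth_arith (r p q p' q' D e : ℕ) (h5 : 5 ≤ r) (hp : p + p' = r) (hq : q + q' = r)
    (h : p * q' + p' * q ≤ e + D) (hD : D ≤ p + q) (he : e ≤ r) (h1 : p + q ≤ r) :
    p + q ≤ 1 := by
  by_contra hcon
  push Not at hcon
  zify at *
  have hp' : (p' : ℤ) = r - p := by linarith
  have hq' : (q' : ℤ) = r - q := by linarith
  rw [hp', hq'] at h
  have h2 : ((p : ℤ) + q) * (r - 1) - 2 * (p * q) ≤ e := by nlinarith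
  have h3 : 0 ≤ ((p : ℤ) + q - 2) * (r - (p + q)) :=
    mul_nonneg (by linarith) (by linarith)
  have h4 : 0 ≤ ((p : ℤ) - q) ^ 2 := sq_nonneg _
  have h5' : 0 ≤ ((p : ℤ) + q - 2) * (r - 4) := mul_nonneg (by linarith) (by linarith)
  nlinarith

theorem card_pairs {α : Type*} [Fintype α] (f g : α → Bool) :
    ((univ : Finset (α × α)).filter (fun q => f q.1 ≠ g q.2)).card =
      (univ.filter (fun i => f i = true)).card * (univ.filter (fun i => g i = false)).card +
      (univ.filter (fun i => f i = false)).card * (univ.filter (fun i => g i = true)).card := by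
  classical
  rw [← card_product, ← card_product, ← card_union_of_disjoint]
  · congr 1
    ext ⟨i, i'⟩
    simp only [mem_filter, mem_univ, true_and, mem_union, mem_product]
    cases f i <;> cases g i' <;> simp
  · rw [disjoint_left]
    rintro ⟨i, i'⟩ h h'
    simp only [mem_product, mem_filter, mem_univ, true_and] at h h'
    rw [h.1] at h'
    exact absurd h'.1 (by simp)

theorem tooth_e {r m : ℕ} (h5 : 5 ≤ r) (f g : Fin r → Bool)
    (h : ((univ : Finset (Fin r × Fin r)).filter (fun q => ¬ (q.1 = q.2 ∧ (q.1 : ℕ) < m) ∧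
      f q.1 ≠ g q.2)).card ≤ r) :
    ∃ δ, (univ.filter (fun i => f i ≠ δ)).card + (univ.filter (fun i => g i ≠ δ)).card ≤ 1 ∧
      ((univ.filter (fun i => f i ≠ δ)).card + (univ.filter (fun i => g i ≠ δ)).card) * (r - 1) ≤
      ((univ : Finset (Fin r × Fin r)).filter (fun q => ¬ (q.1 = q.2 ∧ (q.1 : ℕ) < m) ∧
        f q.1 ≠ g q.2)).card := by
  set e := ((univ : Finset (Fin r × Fin r)).filter (fun q => ¬ (q.1 = q.2 ∧ (q.1 : ℕ) < m) ∧
      f q.1 ≠ g q.2)).card with he
  have hpairs := card_pairs f g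
  set p := (univ.filter (fun i => f i = true)).card with hp
  set p' := (univ.filter (fun i => f i = false)).card with hp'
  set q := (univ.filter (fun i => g i = true)).card with hq
  set q' := (univ.filter (fun i => g i = false)).card with hq'
  have hfl : ∀ f : Fin r → Bool, (univ.filter (fun i => ¬ f i = true)) =
      (univ.filter (fun i => f i = false)) := by
    intro f
    refine filter_congr fun v _ => ?_
    simp
  have hfl2 : ∀ f : Fin r → Bool, (univ.filter (fun i => ¬ f i = false)) =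
      (univ.filter (fun i => f i = true)) := by
    intro f
    refine filter_congr fun v _ => ?_
    simp
  have hpp : p + p' = r := by
    have := card_filter_add_card_filter_not (s := (univ : Finset (Fin r))) (fun i => f i = true)
    rw [hfl, card_univ, Fintype.card_fin] at this
    exact this
  have hqq : q + q' = r := by
    have := card_filter_add_card_filter_not (s := (univ : Finset (Fin r))) (fun i => g i = true)
    rw [hfl, card_univ, Fintype.card_fin] at this
    exact this
  set D := (univ.filter (fun i : Fin r => f i ≠ g i)).card with hD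
  have h1 : p * q' + p' * q ≤ e + D := by
    rw [← hpairs]
    have hinj : Function.Injective (fun i : Fin r => (i, i)) := fun x y h => by
      simpa using h
    rw [hD, ← card_image_of_injective _ hinj, he]
    refine le_trans (card_le_card ?_) (card_union_le _ _)
    rintro ⟨i, i'⟩ hi
    rw [mem_filter] at hi
    rw [mem_union, mem_filter, mem_image]
    by_cases hii : i = i'
    · right
      subst hii
      exact ⟨i, mem_filter.2 ⟨mem_univ _, hi.2⟩, rfl⟩
    · left
      exact ⟨mem_univ _, fun hh => hii hh.1, hi.2⟩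
  have hD1 : D ≤ p + q := by
    rw [hD, hp, hq]
    refine le_trans (card_le_card ?_) (card_union_le _ _)
    intro i hi
    simp only [mem_filter, mem_univ, true_and, mem_union] at hi ⊢
    revert hi
    cases f i <;> cases g i <;> simp
  have hD2 : D ≤ p' + q' := by
    rw [hD, hp', hq']
    refine le_trans (card_le_card ?_) (card_union_le _ _)
    intro i hi
    simp only [mem_filter, mem_univ, true_and, mem_union] at hi ⊢
    revert hi
    cases f i <;> cases g i <;> simp
  rcases le_total (p + q) r with hle | hle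
  · have hw := tooth_arith r p q p' q' D e h5 hpp hqq h1 hD1 h hle
    refine ⟨false, ?_, ?_⟩
    · simp only [ne_eq]
      rw [hfl2, hfl2]
      exact hw
    · simp only [ne_eq]
      rw [hfl2, hfl2]
      change (p + q) * (r - 1) ≤ e
      have : (p = 0 ∧ q = 0) ∨ (p = 1 ∧ q = 0) ∨ (p = 0 ∧ q = 1) := by omega
      rcases this with ⟨hp0, hq0⟩ | ⟨hp0, hq0⟩ | ⟨hp0, hq0⟩
      · rw [hp0, hq0]; omega
      · rw [hp0, hq0] at h1 hD1 ⊢
        omega
      · rw [hp0, hq0] at h1 hD1 ⊢
        omega
  · have hw := tooth_arith r p' q' p q D e h5 (by omega) (by omega)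
      (by rw [add_comm (p' * q) (p * q')]; exact h1) hD2 h (by omega)
    refine ⟨true, ?_, ?_⟩
    · simp only [ne_eq]
      rw [hfl, hfl]
      exact hw
    · simp only [ne_eq]
      rw [hfl, hfl]
      change (p' + q') * (r - 1) ≤ e
      have : (p' = 0 ∧ q' = 0) ∨ (p' = 1 ∧ q' = 0) ∨ (p' = 0 ∧ q' = 1) := by omega
      rcases this with ⟨hp0, hq0⟩ | ⟨hp0, hq0⟩ | ⟨hp0, hq0⟩
      · rw [hp0, hq0]; omega
      · rw [hp0, hq0] at h1 hD2 ⊢
        have : q = r := by omega
        omega
      · rw [hp0, hq0] at h1 hD2 ⊢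
        have : p = r := by omega
        omega

/-! ### Counting cut edges -/

variable {U X : Type} {r t0 N : ℕ} {T : Fin 3 → ℕ} {C : SimpleGraph (Tp r T)} {w : Tp r T → U → X}

/-- The cut of the core. -/
noncomputable def cutC (C : SimpleGraph (Tp r T)) (κ : Tp r T → Bool) : ℕ :=
  {q : Tp r T × Tp r T | C.Adj q.1 q.2 ∧ κ q.1 = true ∧ κ q.2 = false}.ncard

/-- Bad edges. -/
def bad (C : SimpleGraph (Tp r T)) (w : Tp r T → U → X) (W : Vx U X r T → Bool) :
    (U × Fin 3 × (Fin r × Fin r)) ⊕ (U × Tp r T) ⊕ (U × (Tp r T × Tp r T)) ⊕ (U × Tp r T) → Prop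
  | .inl (u, j, q) => ¬ (q.1 = q.2 ∧ (q.1 : ℕ) < T j) ∧ W (.a u j q.1) ≠ W (.b u j q.2)
  | .inr (.inl (u, t)) => W (.b u t.1.1 t.1.2) ≠ W (.c u t)
  | .inr (.inr (.inl (u, q))) => C.Adj q.1 q.2 ∧ W (.c u q.1) = true ∧ W (.c u q.2) = false
  | .inr (.inr (.inr (u, t))) => W (.a u t.1.1 t.1.2) ≠ W (.s t (w t u))

/-- The ends of an edge. -/
def edg (w : Tp r T → U → X) :
    (U × Fin 3 × (Fin r × Fin r)) ⊕ (U × Tp r T) ⊕ (U × (Tp r T × Tp r T)) ⊕ (U × Tp r T) →
      Sym2 (Vx U X r T)
  | .inl (u, j, q) => s(.a u j q.1, .b u j q.2)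
  | .inr (.inl (u, t)) => s(.b u t.1.1 t.1.2, .c u t)
  | .inr (.inr (.inl (u, q))) => s(.c u q.1, .c u q.2)
  | .inr (.inr (.inr (u, t))) => s(.a u t.1.1 t.1.2, .s t (w t u))

theorem edg_inj (W : Vx U X r T → Bool) : Set.InjOn (edg w) {e | bad C w W e} := by
  rintro (⟨u, j, i, i'⟩ | ⟨u, t⟩ | ⟨u, t, t'⟩ | ⟨u, t⟩) he
    (⟨v, k, l, l'⟩ | ⟨v, s⟩ | ⟨v, s, s'⟩ | ⟨v, s⟩) he' h <;>
    simp only [edg, Sym2.eq_iff, Vx.a.injEq, Vx.b.injEq, Vx.c.injEq, Vx.s.injEq, reduceCtorEq,
      and_false, false_and, or_false] at h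
  · obtain ⟨⟨rfl, rfl, rfl⟩, -, -, rfl⟩ := h
    rfl
  · obtain ⟨-, rfl, rfl⟩ := h
    rfl
  · rcases h with ⟨⟨rfl, rfl⟩, -, rfl⟩ | ⟨⟨rfl, rfl⟩, -, rfl⟩
    · rfl
    · exfalso
      have h1 : W (.c u t) = true := he.2.1
      have h2 : W (.c u t) = false := he'.2.2
      rw [h1] at h2
      exact absurd h2 (by simp)
  · obtain ⟨⟨rfl, -⟩, rfl, -⟩ := h
    rfl

theorem cut_le [Fintype U] (W : Vx U X r T → Bool) (F : Finset (Sym2 (Vx U X r T)))
    (hW : ∀ v v', (Gr C w).Adj v v' → W v ≠ W v' → s(v, v') ∈ F) :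
    (∑ u : U, ∑ j : Fin 3, ((univ : Finset (Fin r × Fin r)).filter
        (fun q => ¬ (q.1 = q.2 ∧ (q.1 : ℕ) < T j) ∧ W (.a u j q.1) ≠ W (.b u j q.2))).card) +
      (∑ u : U, ((univ : Finset (Tp r T)).filter
        (fun t => W (.b u t.1.1 t.1.2) ≠ W (.c u t))).card) +
      (∑ u : U, cutC C (fun t => W (.c u t))) +
      ((univ : Finset (U × Tp r T)).filter
        (fun q => W (.a q.1 q.2.1.1 q.2.1.2) ≠ W (.s q.2 (w q.2 q.1)))).card ≤ F.card := by
  classical
  have h1 : ((univ : Finset ((U × Fin 3 × (Fin r × Fin r)) ⊕ (U × Tp r T) ⊕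
      (U × (Tp r T × Tp r T)) ⊕ (U × Tp r T))).filter (fun e => bad C w W e)).card ≤ F.card := by
    refine card_le_card_of_injOn (edg w) ?_ ?_
    · intro e he
      rw [mem_coe, mem_filter] at he
      rw [mem_coe]
      rcases e with ⟨u, j, i, i'⟩ | ⟨u, t⟩ | ⟨u, t, t'⟩ | ⟨u, t⟩
      · exact hW _ _ ⟨rfl, rfl, he.2.1⟩ he.2.2
      · exact hW _ _ ⟨rfl, rfl⟩ he.2
      · refine hW _ _ ⟨rfl, he.2.1⟩ ?_
        rw [he.2.2.1, he.2.2.2]
        simp
      · exact hW _ _ ⟨rfl, rfl⟩ he.2
    · intro e he e' he' h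
      rw [mem_coe, mem_filter] at he he'
      exact edg_inj (C := C) W he.2 he'.2 h
  refine le_trans (le_of_eq ?_) h1
  rw [card_filter (fun e => bad C w W e), Fintype.sum_sum_type, Fintype.sum_sum_type,
    Fintype.sum_sum_type, add_assoc, add_assoc]
  congr 1
  · rw [Fintype.sum_prod_type]
    refine sum_congr rfl fun u _ => ?_
    rw [Fintype.sum_prod_type]
    refine sum_congr rfl fun j _ => ?_
    rw [card_filter]
    exact sum_congr rfl fun q _ => if_congr Iff.rfl rfl rfl
  congr 1
  · rw [Fintype.sum_prod_type]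
    refine sum_congr rfl fun u _ => ?_
    rw [card_filter]
    exact sum_congr rfl fun q _ => if_congr Iff.rfl rfl rfl
  congr 1
  · rw [Fintype.sum_prod_type]
    refine sum_congr rfl fun u _ => ?_
    unfold cutC
    have : {q : Tp r T × Tp r T | C.Adj q.1 q.2 ∧ W (.c u q.1) = true ∧ W (.c u q.2) = false} =
        ((univ.filter (fun q : Tp r T × Tp r T => C.Adj q.1 q.2 ∧ W (.c u q.1) = true ∧
          W (.c u q.2) = false) : Finset (Tp r T × Tp r T)) : Set (Tp r T × Tp r T)) := by
      ext q; simp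
    rw [this, Set.ncard_coe_finset, card_filter]
    exact sum_congr rfl fun q _ => if_congr Iff.rfl rfl rfl
  · rw [card_filter]
    exact sum_congr rfl fun q _ => if_congr Iff.rfl rfl rfl

/-! ### The colours of the teeth -/

theorem cutC_single (hC : Core r t0 N T C) (κ : Tp r T → Bool) (γ : Bool) (t1 : Tp r T)
    (h : ∀ t, t ≠ t1 → κ t = γ) (h1 : κ t1 ≠ γ) : r ≤ cutC C κ + 1 := by
  have hreg := hC.reg t1
  unfold cutC
  rcases hγ : γ with _ | _
  · rw [hγ] at h h1
    have h1' : κ t1 = true := by simpa using h1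
    have : (fun t => (t1, t)) '' C.neighborSet t1 ⊆
        {q : Tp r T × Tp r T | C.Adj q.1 q.2 ∧ κ q.1 = true ∧ κ q.2 = false} := by
      rintro _ ⟨t, ht, rfl⟩
      exact ⟨ht, h1', h t (SimpleGraph.Adj.ne' ht)⟩
    have h2 := Set.ncard_le_ncard this (Set.toFinite _)
    rw [Set.ncard_image_of_injective _ (fun x y h => by simpa using h)] at h2
    omega
  · rw [hγ] at h h1
    have h1' : κ t1 = false := by simpa using h1
    have : (fun t => (t, t1)) '' C.neighborSet t1 ⊆
        {q : Tp r T × Tp r T | C.Adj q.1 q.2 ∧ κ q.1 = true ∧ κ q.2 = false} := by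
      rintro _ ⟨t, ht, rfl⟩
      exact ⟨SimpleGraph.Adj.symm ht, h t (SimpleGraph.Adj.ne' ht), h1'⟩
    have h2 := Set.ncard_le_ncard this (Set.toFinite _)
    rw [Set.ncard_image_of_injective _ (fun x y h => by simpa using h)] at h2
    omega

theorem P1' (hC : Core r t0 N T C) (κ : Tp r T → Bool) (h : cutC C κ ≤ r) :
    ∃ γ t1, ∀ t, t ≠ t1 → κ t = γ := by
  rcases hC.P1 κ h with ⟨t1, h1⟩ | ⟨t1, h1⟩
  · refine ⟨false, t1, fun t ht => ?_⟩
    by_contra hcon
    exact ht (h1 t (by simpa using hcon))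
  · refine ⟨true, t1, fun t ht => ?_⟩
    by_contra hcon
    exact ht (h1 t (by simpa using hcon))

/-- the cost of a unit -/
theorem unit_cost (hC : Core r t0 N T C) (δ : Fin 3 → Bool) (κ : Tp r T → Bool)
    (h : cutC C κ ≤ r) : ∃ γ, (∑ j, if δ j ≠ γ then T j else 0) ≤
      (univ.filter (fun t : Tp r T => δ t.1.1 ≠ κ t)).card + cutC C κ := by
  classical
  obtain ⟨γ, t1, ht1⟩ := P1' hC κ h
  refine ⟨γ, ?_⟩
  have h0 : (∑ j, if δ j ≠ γ then T j else 0) =
      (univ.filter (fun t : Tp r T => δ t.1.1 ≠ γ)).card := by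
    rw [card_eq_sum_card_fiberwise (f := fun t => t.1.1) (t := univ)
      (fun _ _ => mem_coe.2 (mem_univ _))]
    refine sum_congr rfl fun j _ => ?_
    split_ifs with hj
    · rw [← card_col j (hC.T_le j)]
      congr 1
      ext t
      rw [mem_col, mem_filter, mem_filter]
      constructor
      · intro ht
        exact ⟨⟨mem_univ _, by rw [ht]; exact hj⟩, ht⟩
      · exact fun ht => ht.2
    · symm
      rw [card_eq_zero, filter_eq_empty_iff]
      intro t ht ht'
      rw [mem_filter, ht'] at ht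
      exact hj ht.2
  rw [h0]
  have h5 := hC.five
  by_cases hk : κ t1 = γ
  · have : ∀ t, κ t = γ := by
      intro t
      by_cases h : t = t1
      · rw [h, hk]
      · exact ht1 t h
    simp only [this]
    omega
  · have h1 := cutC_single hC κ γ t1 ht1 hk
    have h2 : (univ.filter (fun t : Tp r T => δ t.1.1 ≠ γ)).card ≤
        (insert t1 (univ.filter (fun t : Tp r T => δ t.1.1 ≠ κ t))).card := by
      refine card_le_card fun t ht => ?_
      rw [mem_filter] at ht
      rw [mem_insert, mem_filter]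
      by_cases h : t = t1
      · exact Or.inl h
      · right
        refine ⟨mem_univ _, ?_⟩
        rw [ht1 t h]
        exact ht.2
    have h3 := card_insert_le t1 (univ.filter (fun t : Tp r T => δ t.1.1 ≠ κ t))
    omega

/-- types with a bad edge on the outer side -/
theorem types_le [Fintype U] (δ : U → Fin 3 → Bool) (σ : Tp r T → X → Bool)
    (S : Finset (Tp r T)) (h : ∀ t ∈ S, ∃ u, δ u t.1.1 ≠ σ t (w t u)) :
    S.card ≤ ((univ : Finset (U × Tp r T)).filter
      (fun q => δ q.1 q.2.1.1 ≠ σ q.2 (w q.2 q.1))).card := by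
  classical
  refine le_trans (card_le_card ?_) (card_image_le (f := fun q : U × Tp r T => q.2))
  intro t ht
  obtain ⟨u, hu⟩ := h t ht
  exact mem_image.2 ⟨(u, t), mem_filter.2 ⟨mem_univ _, hu⟩, rfl⟩

theorem teeth_const [Fintype U] (hC : Core r t0 N T C) (hw : Win r T U X w)
    (δ : U → Fin 3 → Bool) (κ : U → Tp r T → Bool) (σ : Tp r T → X → Bool)
    (hK : (∑ u, ((univ.filter (fun t : Tp r T => δ u t.1.1 ≠ κ u t)).card + cutC C (κ u))) +
      ((univ : Finset (U × Tp r T)).filter
        (fun q => δ q.1 q.2.1.1 ≠ σ q.2 (w q.2 q.1))).card ≤ r) :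
    ∃ ε, ∀ u j, δ u j = ε := by
  classical
  have h5 := hC.five
  have hhalf := hC.half
  have hN := hC.N_ge
  have h3 := hC.three
  set e4 := ((univ : Finset (U × Tp r T)).filter
        (fun q => δ q.1 q.2.1.1 ≠ σ q.2 (w q.2 q.1))).card with he4
  have hcut : ∀ u, cutC C (κ u) ≤ r := by
    intro u
    have := single_le_sum (f := fun u => (univ.filter (fun t : Tp r T => δ u t.1.1 ≠ κ u t)).card +
      cutC C (κ u)) (fun _ _ => Nat.zero_le _) (mem_univ u)
    omega
  choose γ hγ using fun u => unit_cost hC (δ u) (κ u) (hcut u)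
  have hsum : (∑ u, ∑ j, if δ u j ≠ γ u then T j else 0) + e4 ≤ r := by
    have := sum_le_sum (fun u (_ : u ∈ (univ : Finset U)) => hγ u)
    omega
  -- consecutive units
  have hcons : ∀ u u' t, w t u = w t u' → δ u t.1.1 ≠ δ u' t.1.1 →
      ∃ u, δ u t.1.1 ≠ σ t (w t u) := by
    intro u u' t hw' hne
    by_cases h : δ u t.1.1 = σ t (w t u)
    · refine ⟨u', ?_⟩
      rw [← hw', ← h]
      exact hne.symm
    · exact ⟨u, h⟩
  rw [← Fintype.sum_prod_type' (f := fun u j => if δ u j ≠ γ u then T j else 0)] at hsum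
  by_cases hnone : ∀ u j, δ u j = γ u
  · obtain ⟨u0, -⟩ := hw.big ∅ (by rw [card_empty]; omega)
    have hconst : ∀ u u', γ u = γ u' := by
      apply hw.conn
      rintro u u' ⟨i0, hi0⟩
      by_contra hne
      have h1 := types_le (w := w) δ σ ((univ : Finset (Tp r T)).filter (fun t => t.1.2 ≠ i0)) (by
        intro t ht
        rw [mem_filter] at ht
        refine hcons u u' t (hi0 t ht.2) ?_
        rw [hnone, hnone]
        exact hne)
      have h2 := card_ne (T := T) i0
      rw [hC.N_eq] at h2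
      omega
    exact ⟨γ u0, fun u j => by rw [hnone, hconst]⟩
  · push Not at hnone
    obtain ⟨u0, j0, h0⟩ := hnone
    exfalso
    have hone : ∀ u j, (u, j) ≠ (u0, j0) → δ u j = γ u := by
      intro u j hne
      by_contra hcon
      have h1 : (∑ x ∈ {(u, j), (u0, j0)}, (if δ x.1 x.2 ≠ γ x.1 then T x.2 else 0)) ≤
          ∑ x : U × Fin 3, (if δ x.1 x.2 ≠ γ x.1 then T x.2 else 0) :=
        sum_le_sum_of_subset (subset_univ _)
      rw [sum_pair hne, if_pos hcon, if_pos h0] at h1
      have := hC.T_ge j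
      have := hC.T_ge j0
      simp only at h1
      omega
    have he4' : T j0 + e4 ≤ r := by
      have h1 := single_le_sum (f := fun x : U × Fin 3 => if δ x.1 x.2 ≠ γ x.1 then T x.2 else 0)
        (fun _ _ => Nat.zero_le _) (mem_univ (u0, j0))
      simp only at h1
      rw [if_pos h0] at h1
      omega
    have hTj0 := hC.T_ge j0
    -- the majority colours are equal
    have hconst : ∀ u u', γ u = γ u' := by
      apply hw.conn
      rintro u u' ⟨i0, hi0⟩
      by_contra hne
      obtain ⟨j1, j2, h1, h2, h12⟩ : ∃ j1 j2 : Fin 3, j1 ≠ j0 ∧ j2 ≠ j0 ∧ j1 ≠ j2 := by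
        revert j0
        intro j0 _ _ _ _
        fin_cases j0
        · exact ⟨1, 2, by decide, by decide, by decide⟩
        · exact ⟨0, 2, by decide, by decide, by decide⟩
        · exact ⟨0, 1, by decide, by decide, by decide⟩
      have h3' := types_le (w := w) δ σ
        (((col r T j1).filter (fun t => t.1.2 ≠ i0)) ∪ ((col r T j2).filter (fun t => t.1.2 ≠ i0)))
        (by
          intro t ht
          rw [mem_union, mem_filter, mem_filter, mem_col, mem_col] at ht
          have hj : t.1.1 ≠ j0 := by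
            rcases ht with ht | ht
            · rw [ht.1]; exact h1
            · rw [ht.1]; exact h2
          have hi : t.1.2 ≠ i0 := by
            rcases ht with ht | ht
            · exact ht.2
            · exact ht.2
          refine hcons u u' t (hi0 t hi) ?_
          rw [hone u t.1.1 (fun h => hj (Prod.ext_iff.1 h).2),
            hone u' t.1.1 (fun h => hj (Prod.ext_iff.1 h).2)]
          exact hne)
      rw [card_union_of_disjoint (by
        rw [disjoint_left]
        intro t ht ht'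
        rw [mem_filter, mem_col] at ht ht'
        exact h12 (ht.1.symm.trans ht'.1))] at h3'
      have := card_col_ne j1 (hC.T_le j1) i0
      have := card_col_ne j2 (hC.T_le j2) i0
      have := hC.T_ge j1
      have := hC.T_ge j2
      omega
    -- the last tooth
    have h4 := types_le (w := w) δ σ (col r T j0) (by
      intro t ht
      rw [mem_col] at ht
      by_cases h : δ u0 t.1.1 = σ t (w t u0)
      · have hfib := hw.fib t (w t u0)
        obtain ⟨u, hu, hne⟩ : ∃ u, w t u = w t u0 ∧ u ≠ u0 := by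
          by_contra hcon
          push Not at hcon
          have : {u | w t u = w t u0} ⊆ {u0} := fun u hu => hcon u hu
          have := Set.ncard_le_ncard this (Set.finite_singleton _)
          rw [hfib, Set.ncard_singleton] at this
          omega
        refine ⟨u, ?_⟩
        rw [hu, ← h, hone u t.1.1 (fun h => hne (Prod.ext_iff.1 h).1), hconst u u0, ht]
        exact fun h' => h0 h'.symm
      · exact ⟨u0, h⟩)
    rw [card_col j0 (hC.T_le j0)] at h4
    omega

theorem unit_dev (hC : Core r t0 N T C) (ε : Bool) (κ : Tp r T → Bool)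
    (h : (univ.filter (fun t : Tp r T => ε ≠ κ t)).card + cutC C κ ≤ r) :
    r * (univ.filter (fun t : Tp r T => κ t ≠ ε)).card ≤
      (univ.filter (fun t : Tp r T => ε ≠ κ t)).card + cutC C κ := by
  classical
  have h5 := hC.five
  have hN := hC.N_ge
  obtain ⟨γ, t1, ht1⟩ := P1' hC κ (by omega)
  have hsw : (univ.filter (fun t : Tp r T => ε ≠ κ t)) =
      (univ.filter (fun t : Tp r T => κ t ≠ ε)) := filter_congr fun t _ => ne_comm
  rw [hsw] at h ⊢
  by_cases hγ : γ = ε
  · subst hγ
    by_cases hk : κ t1 = γ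
    · have : (univ.filter (fun t : Tp r T => κ t ≠ γ)) = ∅ := by
        rw [filter_eq_empty_iff]
        intro t _
        rw [not_not]
        by_cases h : t = t1
        · rw [h, hk]
        · exact ht1 t h
      rw [this, card_empty, mul_zero]
      omega
    · have h1 := cutC_single hC κ γ t1 ht1 hk
      have : (univ.filter (fun t : Tp r T => κ t ≠ γ)) = {t1} := by
        ext t
        rw [mem_filter, mem_singleton]
        constructor
        · intro ht
          by_contra hne
          exact ht.2 (ht1 t hne)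
        · rintro rfl
          exact ⟨mem_univ _, hk⟩
      rw [this, card_singleton, mul_one]
      omega
  · exfalso
    have h1 : (univ.erase t1).card ≤ (univ.filter (fun t : Tp r T => κ t ≠ ε)).card := by
      refine card_le_card fun t ht => ?_
      rw [mem_filter]
      refine ⟨mem_univ _, ?_⟩
      rw [ht1 t (mem_erase.1 ht).1]
      exact hγ
    rw [card_erase_of_mem (mem_univ _), card_univ, hC.N_eq] at h1
    omega

theorem s_dev [Fintype U] [Fintype X] (hw : Win r T U X w) (ε : Bool) (σ : Tp r T → X → Bool) :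
    r * ((univ : Finset (Tp r T × X)).filter (fun q => σ q.1 q.2 ≠ ε)).card ≤
      ((univ : Finset (U × Tp r T)).filter (fun q => ε ≠ σ q.2 (w q.2 q.1))).card := by
  classical
  rw [card_eq_sum_card_fiberwise (s := (univ : Finset (U × Tp r T)).filter
    (fun q => ε ≠ σ q.2 (w q.2 q.1))) (f := fun q => (q.2, w q.2 q.1))
    (t := (univ : Finset (Tp r T × X)).filter (fun q => σ q.1 q.2 ≠ ε)) (by
      intro q hq
      rw [mem_coe, mem_filter] at hq ⊢
      exact ⟨mem_univ _, hq.2.symm⟩)]
  rw [mul_comm, ← smul_eq_mul, ← sum_const]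
  refine sum_le_sum fun q hq => ?_
  rw [mem_filter] at hq
  have h1 := hw.fib q.1 q.2
  have h2 : {u | w q.1 u = q.2} = ((univ.filter (fun u => w q.1 u = q.2) : Finset U) : Set U) := by
    ext x; simp
  rw [h2, Set.ncard_coe_finset] at h1
  refine le_trans h1.ge ?_
  have hinj : Function.Injective (fun u : U => (u, q.1)) := fun x y h => by simpa using h
  rw [← card_image_of_injective _ hinj]
  refine card_le_card fun y hy => ?_
  rw [mem_image] at hy
  obtain ⟨u, hu, rfl⟩ := hy
  rw [mem_filter] at hu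
  rw [mem_filter, mem_filter]
  refine ⟨⟨mem_univ _, ?_⟩, ?_⟩
  · change ε ≠ σ q.1 (w q.1 u)
    rw [hu.2]
    exact hq.2.symm
  · change (q.1, w q.1 u) = q
    rw [hu.2]

theorem ec_main [Fintype U] [Fintype X] (hC : Core r t0 N T C) (hw : Win r T U X w)
    (δ : U → Fin 3 → Bool) (κ : U → Tp r T → Bool) (σ : Tp r T → X → Bool) (K : ℕ) (hKr : K ≤ r)
    (hK : (∑ u, ((univ.filter (fun t : Tp r T => δ u t.1.1 ≠ κ u t)).card + cutC C (κ u))) +
      ((univ : Finset (U × Tp r T)).filter
        (fun q => δ q.1 q.2.1.1 ≠ σ q.2 (w q.2 q.1))).card ≤ K) :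
    ∃ ε, (∀ u j, δ u j = ε) ∧
      r * ((∑ u, (univ.filter (fun t : Tp r T => κ u t ≠ ε)).card) +
        ((univ : Finset (Tp r T × X)).filter (fun q => σ q.1 q.2 ≠ ε)).card) ≤ K := by
  obtain ⟨ε, hε⟩ := teeth_const hC hw δ κ σ (hK.trans hKr)
  refine ⟨ε, hε, ?_⟩
  simp only [hε] at hK
  refine le_trans ?_ hK
  rw [mul_add, mul_sum]
  refine add_le_add (sum_le_sum fun u _ => ?_) (s_dev hw ε σ)
  refine unit_dev hC ε (κ u) ?_
  have := single_le_sum (f := fun u => (univ.filter (fun t : Tp r T => ε ≠ κ u t)).card +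
      cutC C (κ u)) (fun _ _ => Nat.zero_le _) (mem_univ u)
  omega

theorem card_tp_le (P : Fin 3 → Fin r → Prop) [∀ j i, Decidable (P j i)] :
    (univ.filter (fun t : Tp r T => P t.1.1 t.1.2)).card ≤
      ∑ j, (univ.filter (fun i : Fin r => P j i)).card := by
  have : ∑ j, (univ.filter (fun i : Fin r => P j i)).card =
      ((univ : Finset (Fin 3 × Fin r)).filter (fun q => P q.1 q.2)).card := by
    rw [card_filter, Fintype.sum_prod_type]
    exact sum_congr rfl fun j _ => card_filter _ _
  rw [this]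
  refine card_le_card_of_injOn Subtype.val ?_ (Subtype.val_injective.injOn)
  intro t ht
  rw [mem_coe, mem_filter] at ht ⊢
  exact ⟨mem_univ _, ht.2⟩

theorem ec [Fintype U] [Fintype X] (hC : Core r t0 N T C) (hw : Win r T U X w)
    (W : Vx U X r T → Bool) (F : Finset (Sym2 (Vx U X r T))) (hF : F.card ≤ r)
    (hW : ∀ v v', (Gr C w).Adj v v' → W v ≠ W v' → s(v, v') ∈ F) :
    ∃ ε, (univ.filter (fun v => W v ≠ ε)).card ≤ 1 := by
  classical
  have h5 := hC.five
  have hcut := (cut_le (C := C) (w := w) W F hW).trans hF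
  set E1 : U → Fin 3 → ℕ := fun u j => ((univ : Finset (Fin r × Fin r)).filter
        (fun q => ¬ (q.1 = q.2 ∧ (q.1 : ℕ) < T j) ∧ W (.a u j q.1) ≠ W (.b u j q.2))).card with hE1
  change (∑ u, ∑ j, E1 u j) + _ + _ + _ ≤ r at hcut
  have hE1r : ∀ u j, E1 u j ≤ r := by
    intro u j
    have h1 := single_le_sum (f := fun j => E1 u j) (fun _ _ => Nat.zero_le _) (mem_univ j)
    have h2 := single_le_sum (f := fun u => ∑ j, E1 u j) (fun _ _ => Nat.zero_le _) (mem_univ u)
    omega
  have hT : ∀ u j, ∃ δ, (univ.filter (fun i => W (.a u j i) ≠ δ)).card +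
      (univ.filter (fun i => W (.b u j i) ≠ δ)).card ≤ 1 ∧
      ((univ.filter (fun i => W (.a u j i) ≠ δ)).card +
      (univ.filter (fun i => W (.b u j i) ≠ δ)).card) * (r - 1) ≤ E1 u j :=
    fun u j => tooth_e (m := T j) h5 (fun i => W (.a u j i)) (fun i => W (.b u j i)) (hE1r u j)
  obtain ⟨δ, hδ⟩ := Classical.axiom_of_choice (fun u => Classical.axiom_of_choice (hT u))
  set DA := ∑ u, ∑ j, (univ.filter (fun i : Fin r => W (.a u j i) ≠ δ u j)).card with hDA
  set DB := ∑ u, ∑ j, (univ.filter (fun i : Fin r => W (.b u j i) ≠ δ u j)).card with hDB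
  have hD : (DA + DB) * (r - 1) ≤ ∑ u, ∑ j, E1 u j := by
    rw [hDA, hDB, ← sum_add_distrib, sum_mul]
    refine sum_le_sum fun u _ => ?_
    rw [← sum_add_distrib, sum_mul]
    exact sum_le_sum fun j _ => (hδ u j).2
  -- the outer edges
  have hb : ∑ u, (univ.filter (fun t : Tp r T => δ u t.1.1 ≠ W (.c u t))).card ≤
      (∑ u : U, ((univ : Finset (Tp r T)).filter
        (fun t => W (.b u t.1.1 t.1.2) ≠ W (.c u t))).card) + DB := by
    rw [hDB, ← sum_add_distrib]
    refine sum_le_sum fun u _ => ?_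
    refine le_trans ?_ (add_le_add_right (card_tp_le (T := T) (fun j i => W (.b u j i) ≠ δ u j)) _)
    refine le_trans (card_le_card ?_) (card_union_le _ _)
    intro t ht
    rw [mem_filter] at ht
    rw [mem_union, mem_filter, mem_filter]
    by_cases h : W (.b u t.1.1 t.1.2) = δ u t.1.1
    · left
      exact ⟨mem_univ _, by rw [h]; exact ht.2⟩
    · right
      exact ⟨mem_univ _, h⟩
  have ha : ((univ : Finset (U × Tp r T)).filter
        (fun q => δ q.1 q.2.1.1 ≠ W (.s q.2 (w q.2 q.1)))).card ≤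
      ((univ : Finset (U × Tp r T)).filter
        (fun q => W (.a q.1 q.2.1.1 q.2.1.2) ≠ W (.s q.2 (w q.2 q.1)))).card + DA := by
    have h1 : ((univ : Finset (U × Tp r T)).filter
        (fun q => W (.a q.1 q.2.1.1 q.2.1.2) ≠ δ q.1 q.2.1.1)).card ≤ DA := by
      rw [hDA, card_filter, Fintype.sum_prod_type]
      refine sum_le_sum fun u _ => ?_
      refine le_trans (le_of_eq ?_) (card_tp_le (T := T) (fun j i => W (.a u j i) ≠ δ u j))
      rw [card_filter]
    refine le_trans ?_ (add_le_add_right h1 _)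
    refine le_trans (card_le_card ?_) (card_union_le _ _)
    intro q hq
    rw [mem_filter] at hq
    rw [mem_union, mem_filter, mem_filter]
    by_cases h : W (.a q.1 q.2.1.1 q.2.1.2) = δ q.1 q.2.1.1
    · left
      exact ⟨mem_univ _, by rw [h]; exact hq.2⟩
    · right
      exact ⟨mem_univ _, h⟩
  have hD1 : DA + DB ≤ 1 := by
    by_contra hcon
    have h1 : 2 * (r - 1) ≤ (DA + DB) * (r - 1) := Nat.mul_le_mul_right _ (by omega)
    have : (∑ u, ∑ j, E1 u j) ≤ r := by omega
    omega
  obtain ⟨ε, hε, hdev⟩ := ec_main hC hw δ (fun u t => W (.c u t)) (fun t x => W (.s t x))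
    (r + (DA + DB) - (DA + DB) * (r - 1)) (by
      have : DA + DB = 0 ∨ DA + DB = 1 := by omega
      rcases this with h | h
      · rw [h]; omega
      · rw [h]; omega) (by
      rw [sum_add_distrib]
      omega)
  refine ⟨ε, ?_⟩
  have hcount : (univ.filter (fun v => W v ≠ ε)).card = DA + (DB +
      ((∑ u, (univ.filter (fun t : Tp r T => W (.c u t) ≠ ε)).card) +
        ((univ : Finset (Tp r T × X)).filter (fun q => W (.s q.1 q.2) ≠ ε)).card)) := by
    rw [card_filter, ← Equiv.sum_comp (vxEquiv U X r T).symm, Fintype.sum_sum_type,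
      Fintype.sum_sum_type, Fintype.sum_sum_type]
    congr 1
    · rw [hDA, Fintype.sum_prod_type]
      refine sum_congr rfl fun u _ => ?_
      rw [Fintype.sum_prod_type]
      refine sum_congr rfl fun j _ => ?_
      rw [card_filter, hε]
      exact sum_congr rfl fun q _ => if_congr Iff.rfl rfl rfl
    congr 1
    · rw [hDB, Fintype.sum_prod_type]
      refine sum_congr rfl fun u _ => ?_
      rw [Fintype.sum_prod_type]
      refine sum_congr rfl fun j _ => ?_
      rw [card_filter, hε]
      exact sum_congr rfl fun q _ => if_congr Iff.rfl rfl rfl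
    congr 1
    · rw [Fintype.sum_prod_type]
      refine sum_congr rfl fun u _ => ?_
      rw [card_filter]
      exact sum_congr rfl fun q _ => if_congr Iff.rfl rfl rfl
    · rw [card_filter]
      exact sum_congr rfl fun q _ => if_congr Iff.rfl rfl rfl
  rw [hcount]
  set D2 := (∑ u, (univ.filter (fun t : Tp r T => W (.c u t) ≠ ε)).card) +
        ((univ : Finset (Tp r T × X)).filter (fun q => W (.s q.1 q.2) ≠ ε)).card with hD2
  have hdev' : r * D2 ≤ r + (DA + DB) - (DA + DB) * (r - 1) := hdev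
  have : DA + DB = 0 ∨ DA + DB = 1 := by omega
  rcases this with h | h
  · rw [h] at hdev'
    have : D2 ≤ 1 := by
      by_contra hcon
      have : r * 2 ≤ r * D2 := Nat.mul_le_mul_left _ (by omega)
      omega
    omega
  · rw [h] at hdev'
    have : D2 = 0 := by
      by_contra hcon
      have : r * 1 ≤ r * D2 := Nat.mul_le_mul_left _ (by omega)
      omega
    omega

end Pool.Agent.H24.SC
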