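import Pool.Agent.H24.SC.VC
import Pool.Agent.H24.SC.EC

/-!
# MP_6c24cd_co: from colourings to connectivity
-/

namespace Pool.Agent.H24.SC

open Finset

variable {U X : Type} {r t0 N : ℕ} {T : Fin 3 → ℕ} {C : SimpleGraph (Tp r T)} {w : Tp r T → U → X}

theorem conn_of_vc [Fintype U] [Fintype X] (hC : Core r t0 N T C) (hw : Win r T U X w)
    (hcard : r < Fintype.card (Vx U X r T)) (Y : Finset (Vx U X r T)) (hY : Y.card < r) :
    ((Gr C w).induce {v | v ∉ Y}).Connected := by
  classical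
  obtain ⟨v0, hv0⟩ := exists_not_mem Y (by omega)
  have : Nonempty {v : Vx U X r T | v ∉ Y} := ⟨⟨v0, hv0⟩⟩
  refine SimpleGraph.Connected.mk ?_
  rintro ⟨v, hv⟩ ⟨v', hv'⟩
  have hv1 : v ∉ Y := hv
  have hv1' : v' ∉ Y := hv'
  obtain ⟨ε, hε⟩ := vc hC hw Y hY
    (fun x => decide (∃ hx : x ∉ Y, ((Gr C w).induce {v | v ∉ Y}).Reachable ⟨v, hv⟩ ⟨x, hx⟩)) (by
      intro x x' hx hx' hadj
      rw [decide_eq_decide]
      have hadj' : ((Gr C w).induce {v | v ∉ Y}).Adj ⟨x, hx⟩ ⟨x', hx'⟩ := hadj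
      constructor
      · rintro ⟨_, h⟩
        exact ⟨hx', h.trans hadj'.reachable⟩
      · rintro ⟨_, h⟩
        exact ⟨hx, h.trans hadj'.symm.reachable⟩)
  have h1 := hε v hv1
  rw [decide_eq_true (⟨hv1, SimpleGraph.Reachable.refl _⟩ :
    ∃ hx : v ∉ Y, ((Gr C w).induce {v | v ∉ Y}).Reachable ⟨v, hv⟩ ⟨v, hx⟩)] at h1
  have h2 := hε v' hv1'
  rw [← h1, decide_eq_true_eq] at h2
  exact h2.2

theorem cyc_of_ec [Fintype U] [Fintype X] (hC : Core r t0 N T C) (hw : Win r T U X w)
    (F : Finset (Sym2 (Vx U X r T))) (hF : F.card < r + 1) (G' : SimpleGraph (Vx U X r T))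
    (hG' : G' = (Gr C w).deleteEdges (F : Set (Sym2 (Vx U X r T))))
    (c c' : G'.ConnectedComponent) (hne : c ≠ c')
    (hc : ∃ (v : Vx U X r T) (p : G'.Walk v v), p.IsCycle ∧ G'.connectedComponentMk v = c)
    (hc' : ∃ (v : Vx U X r T) (p : G'.Walk v v), p.IsCycle ∧ G'.connectedComponentMk v = c') :
    False := by
  classical
  have two : ∀ c : G'.ConnectedComponent, (∃ (v : Vx U X r T) (p : G'.Walk v v), p.IsCycle ∧
      G'.connectedComponentMk v = c) → ∃ v v', v ≠ v' ∧ G'.connectedComponentMk v = c ∧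
      G'.connectedComponentMk v' = c := by
    rintro c ⟨v, p, hp, hv⟩
    have hadj := p.adj_snd hp.not_nil
    refine ⟨v, p.snd, hadj.ne, hv, ?_⟩
    rw [← hv]
    exact (SimpleGraph.ConnectedComponent.eq.2 hadj.reachable).symm
  obtain ⟨ε, hε⟩ := ec hC hw (fun v => decide (G'.connectedComponentMk v = c)) F (by omega) (by
    intro v v' hadj hne
    by_contra hcon
    apply hne
    rw [decide_eq_decide]
    have hadj' : G'.Adj v v' := by
      rw [hG', SimpleGraph.deleteEdges_adj]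
      exact ⟨hadj, fun h => hcon (mem_coe.1 h)⟩
    rw [SimpleGraph.ConnectedComponent.eq.2 hadj'.reachable])
  rw [card_le_one] at hε
  rcases ε with _ | _
  · obtain ⟨v, v', hvv, hv, hv'⟩ := two c hc
    refine hvv (hε v ?_ v' ?_)
    · rw [mem_filter]
      refine ⟨mem_univ _, ?_⟩
      rw [decide_eq_true hv]
      simp
    · rw [mem_filter]
      refine ⟨mem_univ _, ?_⟩
      rw [decide_eq_true hv']
      simp
  · obtain ⟨v, v', hvv, hv, hv'⟩ := two c' hc'
    refine hvv (hε v ?_ v' ?_)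
    · rw [mem_filter]
      refine ⟨mem_univ _, ?_⟩
      rw [decide_eq_false (fun h => hne (h.symm.trans hv))]
      simp
    · rw [mem_filter]
      refine ⟨mem_univ _, ?_⟩
      rw [decide_eq_false (fun h => hne (h.symm.trans hv'))]
      simp

theorem card_vx [Fintype U] [Fintype X] (hC : Core r t0 N T C) :
    Fintype.card (Vx U X r T) = 6 * r * Fintype.card U + N * Fintype.card U +
      N * Fintype.card X := by
  rw [Fintype.card_congr (vxEquiv U X r T), Fintype.card_sum, Fintype.card_sum, Fintype.card_sum,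
    Fintype.card_prod, Fintype.card_prod, Fintype.card_prod, Fintype.card_prod, Fintype.card_fin,
    Fintype.card_fin, hC.N_eq]
  ring

end Pool.Agent.H24.SC
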