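import Pool.Agent.H24.SC.Basic

/-!
# MP_6c24cd_co: windows and cores
-/

set_option autoImplicit false

namespace Pool.Agent.H24.SC

open Finset

theorem win_inst (r k : ℕ) (T : Fin 3 → ℕ) (hr : 2 ≤ r) [NeZero k] :
    Win r T (ZMod k × Fin r) (ZMod k)
      (fun t u => if t.1.2 ≤ u.2 then u.1 else u.1 - 1) where
  fib := by
    intro t x
    have h : {u : ZMod k × Fin r | (if t.1.2 ≤ u.2 then u.1 else u.1 - 1) = x} =
        (fun ρ : Fin r => ((if t.1.2 ≤ ρ then x else x + 1, ρ) : ZMod k × Fin r)) '' Set.univ := by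
      ext ⟨y, ρ⟩
      rw [Set.image_univ, Set.mem_range]
      constructor
      · intro hu
        refine ⟨ρ, ?_⟩
        change (if t.1.2 ≤ ρ then y else y - 1) = x at hu
        split_ifs at hu ⊢ with h1
        · rw [hu]
        · rw [← hu, sub_add_cancel]
      · rintro ⟨ρ', h'⟩
        rw [Prod.mk.injEq] at h'
        obtain ⟨h1, rfl⟩ := h'
        change (if t.1.2 ≤ ρ' then y else y - 1) = x
        split_ifs at h1 ⊢ with h2
        · exact h1.symm
        · rw [← h1, add_sub_cancel_right]
    change {u : ZMod k × Fin r | (if t.1.2 ≤ u.2 then u.1 else u.1 - 1) = x}.ncard = r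
    rw [h, Set.ncard_image_of_injective, Set.ncard_univ, Nat.card_eq_fintype_card,
      Fintype.card_fin]
    intro a b hab
    exact (Prod.mk.inj hab).2
  big := by
    intro s hs
    by_contra hcon
    push Not at hcon
    have h1 : s = univ := eq_univ_iff_forall.mpr hcon
    rw [h1, card_univ, Fintype.card_prod, ZMod.card, Fintype.card_fin] at hs
    have hk : 0 < k := Nat.pos_of_ne_zero (NeZero.ne k)
    nlinarith
  conn := by
    intro f hf
    have h1 : ∀ (y : ZMod k) (n : ℕ) (hn : n < r), f (y, ⟨n, hn⟩) = f (y, ⟨0, by omega⟩) := by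
      intro y n
      induction n with
      | zero => intro _; rfl
      | succ n ih =>
        intro hn
        rw [← ih (by omega)]
        apply hf
        refine ⟨⟨n + 1, hn⟩, fun t ht => ?_⟩
        have h2 : (t.1.2 : ℕ) ≠ n + 1 := fun h => ht (Fin.ext h)
        simp only [Fin.le_def]
        by_cases h3 : (t.1.2 : ℕ) ≤ n
        · rw [if_pos (by omega), if_pos h3]
        · rw [if_neg (by omega), if_neg h3]
    have h2 : ∀ y : ZMod k, f (y + 1, ⟨0, by omega⟩) = f (y, ⟨0, by omega⟩) := by
      intro y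
      rw [← h1 y (r - 1) (by omega)]
      symm
      apply hf
      refine ⟨⟨0, by omega⟩, fun t ht => ?_⟩
      have h2 : (t.1.2 : ℕ) ≠ 0 := fun h => ht (Fin.ext h)
      have h3 : (t.1.2 : ℕ) < r := t.1.2.2
      simp only [Fin.le_def]
      rw [if_pos (by omega), if_neg (by omega), add_sub_cancel_right]
    have h3 : ∀ n : ℕ, f ((n : ZMod k), ⟨0, by omega⟩) = f (0, ⟨0, by omega⟩) := by
      intro n
      induction n with
      | zero => rw [Nat.cast_zero]
      | succ n ih => rw [Nat.cast_succ, h2, ih]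
    have h4 : ∀ u : ZMod k × Fin r, f u = f (0, ⟨0, by omega⟩) := by
      rintro ⟨y, ρ⟩
      rw [h1 y ρ ρ.2, ← ZMod.natCast_zmod_val y]
      exact h3 _
    intro u u'
    rw [h4 u, h4 u']

theorem h72_alt {V : Type} [Fintype V] [Nonempty V] (κ : V → Bool) (b : Bool)
    (h : (univ.filter (fun t => κ t = b)).card ≤ 1) : ∃ t0, ∀ t, κ t = b → t = t0 := by
  rcases Nat.lt_or_ge 0 (univ.filter (fun t => κ t = b)).card with h0 | h0
  · obtain ⟨t0, ht0⟩ := card_pos.mp h0
    refine ⟨t0, fun t ht => ?_⟩
    exact card_le_one.mp h t (mem_filter.mpr ⟨mem_univ _, ht⟩) t0 ht0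
  · obtain ⟨t0⟩ := (inferInstance : Nonempty V)
    refine ⟨t0, fun t ht => ?_⟩
    have h1 : t ∈ univ.filter (fun t => κ t = b) := mem_filter.mpr ⟨mem_univ _, ht⟩
    have h2 : univ.filter (fun t => κ t = b) = ∅ := card_eq_zero.mp (by omega)
    rw [h2] at h1
    exact absurd h1 (notMem_empty _)

/-- cuts of the complete bipartite graph -/
theorem h72_cut {V : Type} [Fintype V] [Nonempty V] (G : SimpleGraph V) (side : V → Bool)
    (hG : ∀ t t', G.Adj t t' ↔ side t ≠ side t') (m : ℕ) (hm : 4 ≤ m)
    (h1 : (univ.filter (fun t => side t = true)).card = m)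
    (h2 : (univ.filter (fun t => side t = false)).card = m) (κ : V → Bool)
    (hcut : {p : V × V | G.Adj p.1 p.2 ∧ κ p.1 = true ∧ κ p.2 = false}.ncard ≤ m + 1) :
    (∃ t0, ∀ t, κ t = true → t = t0) ∨ (∃ t0, ∀ t, κ t = false → t = t0) := by
  classical
  obtain ⟨A1, hA1⟩ : ∃ A1 : Finset V, A1 = univ.filter (fun t => side t = true ∧ κ t = true) :=
    ⟨_, rfl⟩
  obtain ⟨A0, hA0⟩ : ∃ A0 : Finset V, A0 = univ.filter (fun t => side t = true ∧ κ t = false) :=
    ⟨_, rfl⟩
  obtain ⟨B1, hB1⟩ : ∃ B1 : Finset V, B1 = univ.filter (fun t => side t = false ∧ κ t = true) :=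
    ⟨_, rfl⟩
  obtain ⟨B0, hB0⟩ : ∃ B0 : Finset V, B0 = univ.filter (fun t => side t = false ∧ κ t = false) :=
    ⟨_, rfl⟩
  have split : ∀ (P : V → Prop) [DecidablePred P] (f : V → Bool),
      (univ.filter P).card = (univ.filter (fun t => P t ∧ f t = true)).card +
        (univ.filter (fun t => P t ∧ f t = false)).card := by
    intro P _ f
    rw [← card_filter_add_card_filter_not (s := univ.filter P) (fun t => f t = true),
      filter_filter, filter_filter]
    congr 2
    ext t
    simp
  have hA : A1.card + A0.card = m := by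
    rw [← h1, hA1, hA0]
    exact (split (fun t => side t = true) κ).symm
  have hB : B1.card + B0.card = m := by
    rw [← h2, hB1, hB0]
    exact (split (fun t => side t = false) κ).symm
  have hK1 : (univ.filter (fun t => κ t = true)).card = A1.card + B1.card := by
    rw [split (fun t => κ t = true) side, hA1, hB1]
    congr 2
    · ext t; simp [and_comm]
    · ext t; simp [and_comm]
  have hK0 : (univ.filter (fun t => κ t = false)).card = A0.card + B0.card := by
    rw [split (fun t => κ t = false) side, hA0, hB0]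
    congr 2
    · ext t; simp [and_comm]
    · ext t; simp [and_comm]
  have hset : {p : V × V | G.Adj p.1 p.2 ∧ κ p.1 = true ∧ κ p.2 = false} =
      ((A1 ×ˢ B0 ∪ B1 ×ˢ A0 : Finset (V × V)) : Set (V × V)) := by
    ext ⟨t, t'⟩
    rw [mem_coe, mem_union, mem_product, mem_product, hA1, hA0, hB1, hB0]
    simp only [Set.mem_ofPred_eq, mem_filter, mem_univ, true_and, hG]
    cases side t <;> cases side t' <;> simp
  have hdisj : Disjoint (A1 ×ˢ B0) (B1 ×ˢ A0) := by
    rw [disjoint_left]
    rintro ⟨t, t'⟩ hp hq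
    rw [mem_product, hA1] at hp
    rw [mem_product, hB1] at hq
    have e1 := (mem_filter.mp hp.1).2.1
    have e2 := (mem_filter.mp hq.1).2.1
    rw [e1] at e2
    exact absurd e2 (by simp)
  rw [hset, Set.ncard_coe_finset, card_union_of_disjoint hdisj, card_product, card_product] at hcut
  by_cases hw1 : A1.card + B1.card ≤ 1
  · left
    apply h72_alt
    rw [hK1]
    exact hw1
  · by_cases hw0 : A0.card + B0.card ≤ 1
    · right
      apply h72_alt
      rw [hK0]
      exact hw0
    · exfalso
      push Not at hw1 hw0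
      have e1 : (A0.card : ℤ) = m - A1.card := by omega
      have e2 : (B0.card : ℤ) = m - B1.card := by omega
      have e3 : (A1.card : ℤ) * B0.card + B1.card * A0.card ≤ m + 1 := by exact_mod_cast hcut
      rw [e1, e2] at e3
      have e4 : (2 : ℤ) ≤ (A1.card : ℤ) + B1.card := by omega
      have e5 : (A1.card : ℤ) + B1.card ≤ 2 * m - 2 := by omega
      have e6 : (4 : ℤ) ≤ m := by exact_mod_cast hm
      generalize (A1.card : ℤ) = p at e3 e4 e5
      generalize (B1.card : ℤ) = q at e3 e4 e5
      nlinarith [sq_nonneg (p - q), mul_nonneg (sub_nonneg.mpr e4) (sub_nonneg.mpr e5)]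

/-- the two classes of the core for large `r` -/
def h72_side (r s : ℕ) (T : Fin 3 → ℕ) (t : Tp r T) : Bool :=
  if t.1.1 = 0 then true else if t.1.1 = 1 then false else decide ((t.1.2 : ℕ) < s)

theorem h72_card_split (r : ℕ) (T : Fin 3 → ℕ) (hT : ∀ j, T j ≤ r) (P : Tp r T → Prop)
    [DecidablePred P] : (univ.filter P).card =
      ((col r T 0).filter P).card + ((col r T 1).filter P).card + ((col r T 2).filter P).card := by
  have h : univ.filter P = ((col r T 0).filter P) ∪ ((col r T 1).filter P) ∪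
      ((col r T 2).filter P) := by
    ext t
    simp only [mem_filter, mem_univ, true_and, mem_union, mem_col]
    constructor
    · intro hP
      have h3 : ∀ j : Fin 3, j = 0 ∨ j = 1 ∨ j = 2 := by decide
      rcases h3 t.1.1 with h | h | h
      · exact Or.inl (Or.inl ⟨h, hP⟩)
      · exact Or.inl (Or.inr ⟨h, hP⟩)
      · exact Or.inr ⟨h, hP⟩
    · rintro ((h | h) | h)
      · exact h.2
      · exact h.2
      · exact h.2
  have hd : ∀ i j : Fin 3, i ≠ j → Disjoint ((col r T i).filter P) ((col r T j).filter P) := by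
    intro i j hij
    rw [disjoint_left]
    intro t h1 h2
    rw [mem_filter, mem_col] at h1 h2
    exact hij (h1.1.symm.trans h2.1)
  rw [h, card_union_of_disjoint, card_union_of_disjoint (hd 0 1 (by decide))]
  rw [disjoint_union_left]
  exact ⟨hd 0 2 (by decide), hd 1 2 (by decide)⟩

theorem h72_card_lt (r : ℕ) (T : Fin 3 → ℕ) (j : Fin 3) (hT : T j ≤ r) (s : ℕ) (hs : s ≤ T j) :
    ((col r T j).filter (fun t => (t.1.2 : ℕ) < s)).card = s := by
  conv_rhs => rw [← card_range s]
  refine card_bij (fun t _ => (t.1.2 : ℕ)) ?_ ?_ ?_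
  · intro t ht
    rw [mem_filter] at ht
    rw [mem_range]
    exact ht.2
  · intro t ht t' ht' heq
    rw [mem_filter, mem_col] at ht ht'
    apply Subtype.ext
    apply Prod.ext
    · rw [ht.1, ht'.1]
    · exact Fin.ext heq
  · intro n hn
    rw [mem_range] at hn
    have h1 : n < T j := lt_of_lt_of_le hn hs
    exact ⟨⟨(j, ⟨n, lt_of_lt_of_le h1 hT⟩), h1⟩, mem_filter.2 ⟨mem_col.2 rfl, hn⟩, rfl⟩

theorem core_big (r : ℕ) (h7 : 7 ≤ r) (h8 : r ≠ 8) :
    ∃ t0 N T, ∃ C : SimpleGraph (Tp r T), Core r t0 N T C := by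
  classical
  obtain ⟨t0, ht0⟩ : ∃ t0, t0 = r / 2 + 1 := ⟨_, rfl⟩
  obtain ⟨s, hs⟩ : ∃ s, s = r - 1 - t0 := ⟨_, rfl⟩
  obtain ⟨T, hT⟩ : ∃ T : Fin 3 → ℕ, T = ![t0, t0, 2 * s] := ⟨_, rfl⟩
  have hT0 : T 0 = t0 := by rw [hT]; rfl
  have hT1 : T 1 = t0 := by rw [hT]; rfl
  have hT2 : T 2 = 2 * s := by rw [hT]; rfl
  have h3 : ∀ j : Fin 3, j = 0 ∨ j = 1 ∨ j = 2 := by decide
  have hge : ∀ j, t0 ≤ T j := by
    intro j
    rcases h3 j with rfl | rfl | rfl
    · rw [hT0]
    · rw [hT1]
    · rw [hT2]
      omega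
  have hle : ∀ j, T j ≤ r := by
    intro j
    rcases h3 j with rfl | rfl | rfl
    · rw [hT0]
      omega
    · rw [hT1]
      omega
    · rw [hT2]
      omega
  have hne : Nonempty (Tp r T) :=
    ⟨⟨(0, ⟨0, by omega⟩), by change 0 < T 0; rw [hT0]; omega⟩⟩
  obtain ⟨side, hside⟩ : ∃ side : Tp r T → Bool, side = h72_side r s T := ⟨_, rfl⟩
  have hs0 : ∀ t : Tp r T, t.1.1 = 0 → side t = true := by
    intro t ht
    rw [hside]
    unfold h72_side
    rw [if_pos ht]
  have hs1 : ∀ t : Tp r T, t.1.1 = 1 → side t = false := by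
    intro t ht
    rw [hside]
    unfold h72_side
    rw [ht]
    simp
  have hs2 : ∀ t : Tp r T, t.1.1 = 2 → side t = decide ((t.1.2 : ℕ) < s) := by
    intro t ht
    rw [hside]
    unfold h72_side
    rw [ht]
    simp
  have hc2 : ((col r T 2).filter (fun t => (t.1.2 : ℕ) < s)).card = s :=
    h72_card_lt r T 2 (hle 2) s (by rw [hT2]; omega)
  have hc2' : ((col r T 2).filter (fun t => ¬ (t.1.2 : ℕ) < s)).card = s := by
    have h := card_filter_add_card_filter_not (s := col r T 2) (fun t => (t.1.2 : ℕ) < s)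
    rw [hc2, card_col 2 (hle 2), hT2] at h
    omega
  have htrue : (univ.filter (fun t => side t = true)).card = r - 1 := by
    rw [h72_card_split r T hle]
    have e0 : (col r T 0).filter (fun t => side t = true) = col r T 0 := by
      apply filter_true_of_mem
      intro t ht
      exact hs0 t (mem_col.mp ht)
    have e1 : (col r T 1).filter (fun t => side t = true) = ∅ := by
      apply filter_false_of_mem
      intro t ht
      rw [hs1 t (mem_col.mp ht)]
      simp
    have e2 : (col r T 2).filter (fun t => side t = true) =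
        (col r T 2).filter (fun t => (t.1.2 : ℕ) < s) := by
      apply filter_congr
      intro t ht
      rw [hs2 t (mem_col.mp ht)]
      simp
    rw [e0, e1, e2, hc2, card_col 0 (hle 0), hT0, card_empty]
    omega
  have hfalse : (univ.filter (fun t => side t = false)).card = r - 1 := by
    rw [h72_card_split r T hle]
    have e0 : (col r T 0).filter (fun t => side t = false) = ∅ := by
      apply filter_false_of_mem
      intro t ht
      rw [hs0 t (mem_col.mp ht)]
      simp
    have e1 : (col r T 1).filter (fun t => side t = false) = col r T 1 := by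
      apply filter_true_of_mem
      intro t ht
      exact hs1 t (mem_col.mp ht)
    have e2 : (col r T 2).filter (fun t => side t = false) =
        (col r T 2).filter (fun t => ¬ (t.1.2 : ℕ) < s) := by
      apply filter_congr
      intro t ht
      rw [hs2 t (mem_col.mp ht)]
      simp
    rw [e0, e1, e2, hc2', card_col 1 (hle 1), hT1, card_empty]
    omega
  have hcard : Fintype.card (Tp r T) = 2 * r - 2 := by
    have h := card_filter_add_card_filter_not (s := (univ : Finset (Tp r T)))
      (fun t => side t = true)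
    rw [card_univ, htrue] at h
    have h' : (univ.filter (fun t => ¬ side t = true)) = univ.filter (fun t => side t = false) := by
      apply filter_congr
      intro t _
      simp
    rw [h', hfalse] at h
    omega
  obtain ⟨C, hC⟩ : ∃ C : SimpleGraph (Tp r T), ∀ t t', C.Adj t t' ↔ side t ≠ side t' := by
    refine ⟨⟨fun t t' => side t ≠ side t', ⟨fun t t' h => Ne.symm h⟩, ⟨fun t h => h rfl⟩⟩, ?_⟩
    intro t t'
    exact Iff.rfl
  refine ⟨t0, 2 * r - 2, T, C, ⟨by omega, by omega, by omega, hge, hle, hcard, by omega, by omega,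
    ?_, ?_, ?_⟩⟩
  · intro t
    have h : C.neighborSet t = ((univ.filter (fun t' => side t' = !side t) :
        Finset (Tp r T)) : Set (Tp r T)) := by
      ext t'
      rw [SimpleGraph.mem_neighborSet, hC, mem_coe, mem_filter]
      cases side t <;> cases side t' <;> simp
    rw [h, Set.ncard_coe_finset]
    cases side t
    · rw [Bool.not_false, htrue]
      omega
    · rw [Bool.not_true, hfalse]
      omega
  · intro κ hκ
    exact h72_cut C side hC (r - 1) (by omega) htrue hfalse κ (by omega)
  · intro Z δ hZ hδ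
    have hout : ∀ j : Fin 3, ∃ t : Tp r T, t.1.1 = j ∧ t ∉ Z := by
      intro j
      by_contra hcon
      push Not at hcon
      have h1 : col r T j ⊆ Z := fun t ht => hcon t (mem_col.mp ht)
      have h2 := card_le_card h1
      rw [card_col j (hle j)] at h2
      have h4 := hge j
      omega
    obtain ⟨a, ha, haZ⟩ := hout 0
    obtain ⟨b, hb, hbZ⟩ := hout 1
    obtain ⟨c, hc, hcZ⟩ := hout 2
    have e01 : δ 0 = δ 1 := by
      have h := hδ a b haZ hbZ ((hC a b).mpr (by rw [hs0 a ha, hs1 b hb]; simp))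
      rwa [ha, hb] at h
    have e2 : δ 2 = δ 0 := by
      by_cases hsc : side c = true
      · have h := hδ c b hcZ hbZ ((hC c b).mpr (by rw [hsc, hs1 b hb]; simp))
        rw [hc, hb] at h
        rw [h, e01]
      · have h := hδ c a hcZ haZ ((hC c a).mpr (by rw [hs0 a ha]; exact hsc))
        rwa [hc, ha] at h
    have hall : ∀ j, δ j = δ 0 := by
      intro j
      rcases h3 j with rfl | rfl | rfl
      · rfl
      · exact e01.symm
      · exact e2
    intro j j'
    rw [hall j, hall j']

/-- three types in every tooth -/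
def h72_T : Fin 3 → ℕ := fun _ => 3

/-- the types as pairs -/
def h72_e : Fin 3 × Fin 3 ≃ Tp 5 h72_T where
  toFun p := ⟨(p.1, ⟨p.2, by omega⟩), p.2.2⟩
  invFun t := (t.1.1, ⟨t.1.2, t.2⟩)
  left_inv := fun _ => rfl
  right_inv := fun _ => rfl

/-- adjacency in the product of two triangles -/
def h72_A (p q : Fin 3 × Fin 3) : Bool :=
  (p.1 == q.1 && !(p.2 == q.2)) || (!(p.1 == q.1) && p.2 == q.2)

theorem h72_A_symm : ∀ p q, h72_A p q = true → h72_A q p = true := by decide

theorem h72_A_irrefl : ∀ p, ¬ h72_A p p = true := by decide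

theorem h72_A_reg : ∀ p, (univ.filter (fun q => h72_A p q = true)).card = 4 := by decide

/-- value of a Boolean -/
def h72_v (b : Bool) : ℕ := if b then 1 else 0

/-- contribution of an edge to a cut -/
def h72_x (a b : Bool) : ℕ := if a = b then 0 else 1

theorem h72_five_dec : ∀ a b c d e f g h i : Bool,
    h72_x a b + h72_x a c + h72_x b c + h72_x d e + h72_x d f + h72_x e f +
    h72_x g h + h72_x g i + h72_x h i + h72_x a d + h72_x a g + h72_x d g +
    h72_x b e + h72_x b h + h72_x e h + h72_x c f + h72_x c i + h72_x f i ≤ 5 →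
    h72_v a + h72_v b + h72_v c + h72_v d + h72_v e + h72_v f + h72_v g + h72_v h + h72_v i ≤ 1 ∨
    h72_v (!a) + h72_v (!b) + h72_v (!c) + h72_v (!d) + h72_v (!e) + h72_v (!f) + h72_v (!g) +
      h72_v (!h) + h72_v (!i) ≤ 1 := by
  decide +kernel

theorem h72_pair (a b : Bool) : (if a = true ∧ b = false then 1 else 0) +
    (if b = true ∧ a = false then 1 else 0) = h72_x a b := by
  cases a <;> cases b <;> rfl

theorem h72_five_cut (κ : Fin 3 × Fin 3 → Bool)
    (h : (univ.filter (fun p : (Fin 3 × Fin 3) × (Fin 3 × Fin 3) =>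
      h72_A p.1 p.2 = true ∧ κ p.1 = true ∧ κ p.2 = false)).card ≤ 5) :
    (univ.filter (fun p => κ p = true)).card ≤ 1 ∨
      (univ.filter (fun p => κ p = false)).card ≤ 1 := by
  obtain ⟨g, hg⟩ : ∃ g : Fin 3 × Fin 3 → Fin 3 × Fin 3 → ℕ, ∀ p q,
      g p q = if κ p = true ∧ κ q = false then 1 else 0 := ⟨_, fun _ _ => rfl⟩
  have hx : ∀ p q, h72_x (κ p) (κ q) = g p q + g q p := by
    intro p q
    rw [← h72_pair, hg, hg]
  have hv1 : ∀ p, (if κ p = true then 1 else 0) = h72_v (κ p) := by
    intro p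
    rfl
  have hv0 : ∀ p, (if κ p = false then 1 else 0) = h72_v (!κ p) := by
    intro p
    cases κ p <;> rfl
  have hA : ∀ p q : Fin 3 × Fin 3, (if h72_A p q = true ∧ κ p = true ∧ κ q = false then 1 else 0) =
      if h72_A p q = true then g p q else 0 := by
    intro p q
    rw [hg]
    by_cases hpq : h72_A p q = true
    · simp [hpq]
    · simp [hpq]
  rw [card_filter] at h
  rw [card_filter, card_filter]
  simp only [hA] at h
  simp only [hv1, hv0]
  have key := h72_five_dec (κ (0, 0)) (κ (0, 1)) (κ (0, 2)) (κ (1, 0)) (κ (1, 1)) (κ (1, 2))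
    (κ (2, 0)) (κ (2, 1)) (κ (2, 2))
  simp only [hx] at key
  have h2 : ∑ x : (Fin 3 × Fin 3) × (Fin 3 × Fin 3), (if h72_A x.1 x.2 = true then g x.1 x.2 else 0)
      = g (0, 0) (0, 1) + g (0, 1) (0, 0) + (g (0, 0) (0, 2) + g (0, 2) (0, 0)) +
        (g (0, 1) (0, 2) + g (0, 2) (0, 1)) + (g (1, 0) (1, 1) + g (1, 1) (1, 0)) +
        (g (1, 0) (1, 2) + g (1, 2) (1, 0)) + (g (1, 1) (1, 2) + g (1, 2) (1, 1)) +
        (g (2, 0) (2, 1) + g (2, 1) (2, 0)) + (g (2, 0) (2, 2) + g (2, 2) (2, 0)) +
        (g (2, 1) (2, 2) + g (2, 2) (2, 1)) + (g (0, 0) (1, 0) + g (1, 0) (0, 0)) +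
        (g (0, 0) (2, 0) + g (2, 0) (0, 0)) + (g (1, 0) (2, 0) + g (2, 0) (1, 0)) +
        (g (0, 1) (1, 1) + g (1, 1) (0, 1)) + (g (0, 1) (2, 1) + g (2, 1) (0, 1)) +
        (g (1, 1) (2, 1) + g (2, 1) (1, 1)) + (g (0, 2) (1, 2) + g (1, 2) (0, 2)) +
        (g (0, 2) (2, 2) + g (2, 2) (0, 2)) + (g (1, 2) (2, 2) + g (2, 2) (1, 2)) := by
    simp only [Fintype.sum_prod_type, Fin.sum_univ_three]
    simp [h72_A]
    omega
  rw [h2] at h
  have h3 := key h
  simp only [Fintype.sum_prod_type, Fin.sum_univ_three]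
  rcases h3 with h3 | h3
  · left
    omega
  · right
    omega

theorem core_five : ∃ t0 N T, ∃ C : SimpleGraph (Tp 5 T), Core 5 t0 N T C := by
  classical
  have hne : Nonempty (Tp 5 h72_T) := ⟨h72_e (0, 0)⟩
  obtain ⟨C, hC⟩ : ∃ C : SimpleGraph (Tp 5 h72_T), ∀ t t', C.Adj t t' ↔
      h72_A (h72_e.symm t) (h72_e.symm t') = true := by
    refine ⟨⟨fun t t' => h72_A (h72_e.symm t) (h72_e.symm t') = true,
      ⟨fun t t' h => h72_A_symm _ _ h⟩, ⟨fun t h => h72_A_irrefl _ h⟩⟩, ?_⟩
    intro t t'
    exact Iff.rfl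
  have htrans : ∀ (κ : Tp 5 h72_T → Bool) (b : Bool), (univ.filter (fun t => κ t = b)).card =
      (univ.filter (fun p => κ (h72_e p) = b)).card := by
    intro κ b
    symm
    apply card_bij (fun p _ => h72_e p)
    · intro p hp
      rw [mem_filter] at hp ⊢
      exact ⟨mem_univ _, hp.2⟩
    · intro p _ q _ hpq
      exact h72_e.injective hpq
    · intro t ht
      rw [mem_filter] at ht
      refine ⟨h72_e.symm t, mem_filter.mpr ⟨mem_univ _, ?_⟩, h72_e.apply_symm_apply t⟩
      rw [h72_e.apply_symm_apply]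
      exact ht.2
  refine ⟨3, 9, h72_T, C, ⟨by norm_num, by norm_num, by norm_num, fun j => le_refl 3,
    fun j => (by norm_num : (3 : ℕ) ≤ 5), ?_, by norm_num, by norm_num, ?_, ?_, ?_⟩⟩
  · rw [← Fintype.card_congr h72_e]
    simp
  · intro t
    have h : C.neighborSet t = h72_e '' ((univ.filter (fun q => h72_A (h72_e.symm t) q = true) :
        Finset (Fin 3 × Fin 3)) : Set (Fin 3 × Fin 3)) := by
      ext t'
      rw [SimpleGraph.mem_neighborSet, hC, Set.mem_image]
      constructor
      · intro h'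
        exact ⟨h72_e.symm t', by rw [mem_coe, mem_filter]; exact ⟨mem_univ _, h'⟩,
          h72_e.apply_symm_apply t'⟩
      · rintro ⟨q, hq, rfl⟩
        rw [mem_coe, mem_filter] at hq
        rw [h72_e.symm_apply_apply]
        exact hq.2
    rw [h, Set.ncard_image_of_injective _ h72_e.injective, Set.ncard_coe_finset, h72_A_reg]
  · intro κ hκ
    have h1 : (univ.filter (fun p : (Fin 3 × Fin 3) × (Fin 3 × Fin 3) =>
        h72_A p.1 p.2 = true ∧ κ (h72_e p.1) = true ∧ κ (h72_e p.2) = false)).card ≤ 5 := by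
      refine le_trans (le_of_eq ?_) hκ
      rw [← Set.ncard_coe_finset, ← Set.ncard_image_of_injective _
        (Prod.map_injective.mpr ⟨h72_e.injective, h72_e.injective⟩)]
      congr 1
      ext ⟨t, t'⟩
      rw [Set.mem_image]
      constructor
      · rintro ⟨⟨p, q⟩, hpq, heq⟩
        rw [mem_coe, mem_filter] at hpq
        rw [Prod.map_apply, Prod.mk.injEq] at heq
        obtain ⟨rfl, rfl⟩ := heq
        refine ⟨(hC _ _).mpr ?_, hpq.2.2.1, hpq.2.2.2⟩
        rw [h72_e.symm_apply_apply, h72_e.symm_apply_apply]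
        exact hpq.2.1
      · rintro ⟨h1, h2, h3⟩
        refine ⟨(h72_e.symm t, h72_e.symm t'), ?_, ?_⟩
        · rw [mem_coe, mem_filter]
          refine ⟨mem_univ _, (hC _ _).mp h1, ?_, ?_⟩
          · rw [h72_e.apply_symm_apply]
            exact h2
          · rw [h72_e.apply_symm_apply]
            exact h3
        · rw [Prod.map_apply, h72_e.apply_symm_apply, h72_e.apply_symm_apply]
    rcases h72_five_cut (fun p => κ (h72_e p)) h1 with h | h
    · left
      apply h72_alt
      rw [htrans]
      exact h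
    · right
      apply h72_alt
      rw [htrans]
      exact h
  · intro Z δ hZ hδ
    have hcol : ∃ i : Fin 3, ∀ j : Fin 3, h72_e (j, i) ∉ Z := by
      by_contra hcon
      push Not at hcon
      have h1 : (univ : Finset (Fin 3)) ⊆ Z.image (fun t => (h72_e.symm t).2) := by
        intro i _
        obtain ⟨j, hj⟩ := hcon i
        rw [mem_image]
        exact ⟨h72_e (j, i), hj, by rw [h72_e.symm_apply_apply]⟩
      have h2 := (card_le_card h1).trans card_image_le
      rw [card_univ, Fintype.card_fin] at h2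
      omega
    obtain ⟨i, hi⟩ := hcol
    intro j j'
    by_cases hjj : j = j'
    · rw [hjj]
    · have h := hδ (h72_e (j, i)) (h72_e (j', i)) (hi j) (hi j') ((hC _ _).mpr (by
        rw [h72_e.symm_apply_apply, h72_e.symm_apply_apply]
        simp [h72_A, hjj]))
      exact h

end Pool.Agent.H24.SC
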