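import Pool.Agent.H24.SC.Basic

/-!
# MP_6c24cd_co: the vertex-connectivity
-/

namespace Pool.Agent.H24.SC

open Finset

theorem exists_not_mem {α : Type*} [Fintype α] (s : Finset α) (h : s.card < Fintype.card α) :
    ∃ x, x ∉ s := by
  by_contra hcon
  push Not at hcon
  have : s = univ := by
    ext x
    simp [hcon x]
  rw [this, card_univ] at h
  omega

/-- The tooth lemma, vertex version. -/
theorem tooth_half {r m : ℕ} (P Q : Finset (Fin r)) (h1 : P.card + Q.card < r)
    (h2 : Q.card + 3 ≤ r) (f g : Fin r → Bool)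
    (h : ∀ i i', i ∉ P → i' ∉ Q → ¬ (i = i' ∧ (i : ℕ) < m) → f i = g i') :
    (∃ δ, (∀ i, i ∉ P → f i = δ) ∧ (∀ i, i ∉ Q → g i = δ)) ∨
    (Q = ∅ ∧ ∃ i0 : Fin r, (i0 : ℕ) < m ∧ (∀ i, i ∈ P ↔ i ≠ i0) ∧
      ∀ i, i ≠ i0 → g i = f i0) := by
  have hconst : ∀ i1 i2, i1 ∉ P → i2 ∉ P → f i1 = f i2 := by
    intro i1 i2 hi1 hi2
    obtain ⟨i', hi'⟩ := exists_not_mem (insert i1 (insert i2 Q)) (by
      have := card_insert_le i1 (insert i2 Q)
      have := card_insert_le i2 Q
      rw [Fintype.card_fin]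
      omega)
    simp only [mem_insert, not_or] at hi'
    rw [h i1 i' hi1 hi'.2.2 (fun hh => hi'.1 hh.1.symm),
      h i2 i' hi2 hi'.2.2 (fun hh => hi'.2.1 hh.1.symm)]
  obtain ⟨i1, hi1⟩ := exists_not_mem P (by rw [Fintype.card_fin]; omega)
  by_cases h3 : ∃ i2, i2 ∉ P ∧ i2 ≠ i1
  · obtain ⟨i2, hi2, hne⟩ := h3
    left
    refine ⟨f i1, fun i hi => hconst _ _ hi hi1, fun i hi => ?_⟩
    by_cases hii : i = i1
    · rw [hconst i1 i2 hi1 hi2]
      exact (h i2 i hi2 hi (fun hh => hne (hh.1.trans hii))).symm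
    · exact (h i1 i hi1 hi (fun hh => hii hh.1.symm)).symm
  · push Not at h3
    have hP : ∀ i, i ∈ P ↔ i ≠ i1 := by
      intro i
      constructor
      · intro hi hii
        exact hi1 (hii ▸ hi)
      · intro hi
        by_contra hcon
        exact hi (h3 i hcon)
    have hPc : P.card + 1 = r := by
      have : P = univ.erase i1 := by
        ext i
        rw [hP, mem_erase]
        simp
      rw [this, card_erase_of_mem (mem_univ _), card_univ, Fintype.card_fin]
      omega
    have hQ : Q = ∅ := by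
      rw [← card_eq_zero]
      omega
    by_cases hm : (i1 : ℕ) < m
    · right
      refine ⟨hQ, i1, hm, hP, fun i hi => ?_⟩
      refine (h i1 i hi1 (by rw [hQ]; simp) (fun hh => hi hh.1.symm)).symm
    · left
      refine ⟨f i1, fun i hi => hconst _ _ hi hi1, fun i hi => ?_⟩
      exact (h i1 i hi1 hi (fun hh => hm hh.2)).symm

variable {U X : Type} {r t0 N : ℕ} {T : Fin 3 → ℕ} {C : SimpleGraph (Tp r T)} {w : Tp r T → U → X}

/-- The outer half of the graph. -/
def isAS : Vx U X r T → Bool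
  | .a _ _ _ => true
  | .s _ _ => true
  | _ => false

/-- The index of a vertex. -/
def tag : Vx U X r T → Fin 3 × Fin r
  | .a _ j i => (j, i)
  | .b _ j i => (j, i)
  | .c _ t => t.1
  | .s t _ => t.1

/-- The unit of a vertex. -/
def unt [DecidableEq U] : Vx U X r T → Finset U
  | .a u _ _ => {u}
  | .b u _ _ => {u}
  | .c u _ => {u}
  | .s _ _ => ∅

theorem block (F : Finset (Vx U X r T)) (S : Finset (Tp r T)) (h : F.card < S.card) :
    ∃ t ∈ S, ∀ v ∈ F, tag v ≠ t.1 := by
  have h1 : (F.image tag).card < (S.image Subtype.val).card := by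
    rw [card_image_of_injective _ Subtype.val_injective]
    exact lt_of_le_of_lt card_image_le h
  obtain ⟨p, hp, hp'⟩ := exists_mem_notMem_of_card_lt_card h1
  rw [mem_image] at hp
  obtain ⟨t, ht, rfl⟩ := hp
  exact ⟨t, ht, fun v hv hh => hp' (mem_image.2 ⟨v, hv, hh⟩)⟩

theorem vc_main [DecidableEq U] (hC : Core r t0 N T C) (hw : Win r T U X w)
    (Y : Finset (Vx U X r T)) (W : Vx U X r T → Bool)
    (hW : ∀ v v', v ∉ Y → v' ∉ Y → (Gr C w).Adj v v' → W v = W v')
    (hT : ∀ u j, ∃ δ, (∀ i, Vx.a u j i ∉ Y → W (.a u j i) = δ) ∧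
      (∀ i, Vx.b u j i ∉ Y → W (.b u j i) = δ))
    (hp : (Y.filter (fun v => isAS v = true)).card < r)
    (hq : (Y.filter (fun v => isAS v = false)).card < r)
    (hY : Y.card ≤ r)
    (hor : (Y.filter (fun v => isAS v = false)).card < t0 ∨
      (Y.filter (fun v => isAS v = true)).card + 2 ≤ t0) :
    ∃ ε, ∀ v, v ∉ Y → W v = ε := by
  classical
  have h5 := hC.five
  obtain ⟨δ, hδ⟩ := Classical.axiom_of_choice (fun u => Classical.axiom_of_choice (hT u))
  -- an edge from tooth to core
  have hbc : ∀ u (t : Tp r T), Vx.b u t.1.1 t.1.2 ∉ Y → Vx.c u t ∉ Y →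
      W (.c u t) = δ u t.1.1 := by
    intro u t h1 h2
    rw [← (hδ u t.1.1).2 _ h1]
    exact hW _ _ h2 h1 ⟨rfl, rfl⟩
  have has : ∀ u (t : Tp r T), Vx.a u t.1.1 t.1.2 ∉ Y → Vx.s t (w t u) ∉ Y →
      W (.s t (w t u)) = δ u t.1.1 := by
    intro u t h1 h2
    rw [← (hδ u t.1.1).1 _ h1]
    exact hW _ _ h2 h1 ⟨rfl, rfl⟩
  -- step 1
  have step1 : ∀ u u' j j', δ u j = δ u' j' := by
    rcases hor with hq' | hp'
    · have h1 : ∀ u j j', δ u j = δ u j' := by
        intro u
        refine hC.P2 (univ.filter (fun t => ∃ v ∈ Y.filter (fun v => isAS v = false),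
          tag v = t.1)) (δ u) ?_ ?_
        · refine lt_of_le_of_lt ?_ hq'
          rw [← card_image_of_injective _ Subtype.val_injective]
          refine le_trans (card_le_card ?_) (card_image_le (f := tag))
          intro p hp
          rw [mem_image] at hp
          obtain ⟨t, ht, rfl⟩ := hp
          rw [mem_filter] at ht
          obtain ⟨v, hv, hv'⟩ := ht.2
          exact mem_image.2 ⟨v, hv, hv'⟩
        · intro t t' ht ht' hadj
          simp only [mem_filter, mem_univ, true_and, not_exists, not_and] at ht ht'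
          have hb : Vx.b u t.1.1 t.1.2 ∉ Y := fun hh => ht _ ⟨hh, rfl⟩ rfl
          have hc : Vx.c u t ∉ Y := fun hh => ht _ ⟨hh, rfl⟩ rfl
          have hb' : Vx.b u t'.1.1 t'.1.2 ∉ Y := fun hh => ht' _ ⟨hh, rfl⟩ rfl
          have hc' : Vx.c u t' ∉ Y := fun hh => ht' _ ⟨hh, rfl⟩ rfl
          rw [← hbc u t hb hc, ← hbc u t' hb' hc']
          exact hW _ _ hc hc' ⟨rfl, hadj⟩
      have h2 : ∀ u u', δ u 0 = δ u' 0 := by
        apply hw.conn
        rintro u u' ⟨i0, hi0⟩
        have hcard := card_ne (T := T) i0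
        rw [hC.N_eq] at hcard
        have hN := hC.N_ge
        obtain ⟨t, ht, htY⟩ := block Y ((univ : Finset (Tp r T)).filter (fun t => t.1.2 ≠ i0))
          (by omega)
        rw [mem_filter] at ht
        have ha : Vx.a u t.1.1 t.1.2 ∉ Y := fun hh => htY _ hh rfl
        have ha' : Vx.a u' t.1.1 t.1.2 ∉ Y := fun hh => htY _ hh rfl
        have hs : Vx.s t (w t u) ∉ Y := fun hh => htY _ hh rfl
        rw [h1 u 0 t.1.1, h1 u' 0 t.1.1, ← has u t ha hs,
          ← has u' t ha' (by rw [← hi0 t ht.2]; exact hs), hi0 t ht.2]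
      intro u u' j j'
      rw [h1 u j 0, h1 u' j' 0, h2 u u']
    · have h1 : ∀ j u u', δ u j = δ u' j := by
        intro j
        apply hw.conn (fun u => δ u j)
        rintro u u' ⟨i0, hi0⟩
        have hcard := card_col_ne j (hC.T_le j) i0
        have hT0 := hC.T_ge j
        obtain ⟨t, ht, htY⟩ := block (Y.filter (fun v => isAS v = true))
          ((col r T j).filter (fun t => t.1.2 ≠ i0)) (by omega)
        rw [mem_filter, mem_col] at ht
        have ha : Vx.a u t.1.1 t.1.2 ∉ Y := fun hh => htY _ (mem_filter.2 ⟨hh, rfl⟩) rfl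
        have ha' : Vx.a u' t.1.1 t.1.2 ∉ Y := fun hh => htY _ (mem_filter.2 ⟨hh, rfl⟩) rfl
        have hs : Vx.s t (w t u) ∉ Y := fun hh => htY _ (mem_filter.2 ⟨hh, rfl⟩) rfl
        have e1 := has u t ha hs
        have e2 := has u' t ha' (by rw [← hi0 t ht.2]; exact hs)
        rw [← hi0 t ht.2, e1, ht.1] at e2
        exact e2
      obtain ⟨u1, hu1⟩ := hw.big ((Y.filter (fun v => isAS v = false)).biUnion unt) (by
        refine lt_of_le_of_lt (card_biUnion_le_card_mul _ _ 1 ?_) (by rwa [mul_one])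
        intro v _
        rcases v with ⟨u, j, i⟩ | ⟨u, j, i⟩ | ⟨u, t⟩ | ⟨t, x⟩ <;> simp [unt])
      rw [mem_biUnion] at hu1
      push Not at hu1
      have h2 : ∀ j j', δ u1 j = δ u1 j' := by
        refine hC.P2 ∅ (δ u1) (by rw [card_empty]; have := hC.three; omega) ?_
        intro t t' _ _ hadj
        have hb : Vx.b u1 t.1.1 t.1.2 ∉ Y := fun hh =>
          hu1 _ (mem_filter.2 ⟨hh, rfl⟩) (mem_singleton_self _)
        have hc : Vx.c u1 t ∉ Y := fun hh =>
          hu1 _ (mem_filter.2 ⟨hh, rfl⟩) (mem_singleton_self _)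
        have hb' : Vx.b u1 t'.1.1 t'.1.2 ∉ Y := fun hh =>
          hu1 _ (mem_filter.2 ⟨hh, rfl⟩) (mem_singleton_self _)
        have hc' : Vx.c u1 t' ∉ Y := fun hh =>
          hu1 _ (mem_filter.2 ⟨hh, rfl⟩) (mem_singleton_self _)
        rw [← hbc u1 t hb hc, ← hbc u1 t' hb' hc']
        exact hW _ _ hc hc' ⟨rfl, hadj⟩
      intro u u' j j'
      rw [h1 j u u1, h1 j' u' u1, h2 j j']
  obtain ⟨u0, -⟩ := hw.big ∅ (by rw [card_empty]; omega)
  refine ⟨δ u0 0, ?_⟩
  rintro (⟨u, j, i⟩ | ⟨u, j, i⟩ | ⟨u, t⟩ | ⟨t, x⟩) hv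
  · rw [(hδ u j).1 i hv, step1 u u0 j 0]
  · rw [(hδ u j).2 i hv, step1 u u0 j 0]
  · -- core vertices
    have hcard : (insert t (univ.filter (fun t' => C.Adj t t'))).card = r := by
      have h1 := hC.reg t
      have h2 : C.neighborSet t = ((univ.filter (fun t' => C.Adj t t') : Finset (Tp r T)) :
          Set (Tp r T)) := by
        ext x; simp
      rw [h2, Set.ncard_coe_finset] at h1
      rw [card_insert_of_notMem (by simp)]
      exact h1
    obtain ⟨t', ht', htY⟩ := block (Y.filter (fun v => isAS v = false))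
      (insert t (univ.filter (fun t' => C.Adj t t'))) (by rw [hcard]; exact hq)
    have hb : Vx.b u t'.1.1 t'.1.2 ∉ Y := fun hh => htY _ (mem_filter.2 ⟨hh, rfl⟩) rfl
    have hc : Vx.c u t' ∉ Y := fun hh => htY _ (mem_filter.2 ⟨hh, rfl⟩) rfl
    rw [mem_insert, mem_filter] at ht'
    rcases ht' with rfl | ht'
    · rw [hbc u t' hb hc, step1 u u0 _ 0]
    · rw [hW _ _ hv hc ⟨rfl, ht'.2⟩, hbc u t' hb hc, step1 u u0 _ 0]
  · -- connecting vertices
    have : ∃ u, w t u = x ∧ Vx.a u t.1.1 t.1.2 ∉ Y := by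
      by_contra hcon
      push Not at hcon
      have h1 : (fun u : U => (Vx.a u t.1.1 t.1.2 : Vx U X r T)) '' {u | w t u = x} ⊆
          ((Y.filter (fun v => isAS v = true) : Finset (Vx U X r T)) : Set (Vx U X r T)) := by
        rintro _ ⟨u, hu, rfl⟩
        rw [mem_coe, mem_filter]
        exact ⟨hcon u hu, rfl⟩
      have h2 := Set.ncard_le_ncard h1 (Finset.finite_toSet _)
      rw [Set.ncard_image_of_injective _ (by intro x y h; simpa using h), hw.fib,
        Set.ncard_coe_finset] at h2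
      omega
    obtain ⟨u, hu, ha⟩ := this
    subst hu
    rw [has u t ha hv, step1 u u0 _ 0]

/-- The connectivity in terms of colourings. -/
theorem vc [DecidableEq U] (hC : Core r t0 N T C) (hw : Win r T U X w)
    (Y : Finset (Vx U X r T)) (hY : Y.card < r) (W : Vx U X r T → Bool)
    (hW : ∀ v v', v ∉ Y → v' ∉ Y → (Gr C w).Adj v v' → W v = W v') :
    ∃ ε, ∀ v, v ∉ Y → W v = ε := by
  classical
  have h5 := hC.five
  have h3 := hC.three
  have hhalf := hC.half
  have hsplit := card_filter_add_card_filter_not (s := Y) (fun v => isAS v = true)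
  have hfl : ∀ Y : Finset (Vx U X r T), Y.filter (fun v => ¬ isAS v = true) =
      Y.filter (fun v => isAS v = false) := by
    intro Y
    refine filter_congr fun v _ => ?_
    simp
  rw [hfl] at hsplit
  by_cases hall : ∀ u j, ∃ δ, (∀ i, Vx.a u j i ∉ Y → W (.a u j i) = δ) ∧
      (∀ i, Vx.b u j i ∉ Y → W (.b u j i) = δ)
  · exact vc_main hC hw Y W hW hall (by omega) (by omega) (by omega) (by omega)
  push Not at hall
  obtain ⟨u0, j0, hno⟩ := hall
  -- the sets of deleted vertices of a tooth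
  have hinjA : ∀ u j, Function.Injective (fun i : Fin r => (Vx.a u j i : Vx U X r T)) := by
    intro u j x y h
    simpa using h
  have hinjB : ∀ u j, Function.Injective (fun i : Fin r => (Vx.b u j i : Vx U X r T)) := by
    intro u j x y h
    simpa using h
  have hAB : ∀ u j, (univ.filter (fun i : Fin r => Vx.a u j i ∈ Y)).card +
      (univ.filter (fun i : Fin r => Vx.b u j i ∈ Y)).card < r := by
    intro u j
    refine lt_of_le_of_lt ?_ hY
    rw [← card_image_of_injective _ (hinjA u j), ← card_image_of_injective _ (hinjB u j),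
      ← card_union_of_disjoint]
    · refine card_le_card ?_
      intro v hv
      rw [mem_union, mem_image, mem_image] at hv
      rcases hv with ⟨i, hi, rfl⟩ | ⟨i, hi, rfl⟩
      · exact (mem_filter.1 hi).2
      · exact (mem_filter.1 hi).2
    · rw [disjoint_left]
      intro v hv hv'
      rw [mem_image] at hv hv'
      obtain ⟨i, _, rfl⟩ := hv
      obtain ⟨i', _, h⟩ := hv'
      exact absurd h (by simp)
  have hadjA : ∀ u j i i', Vx.a u j i ∉ Y → Vx.b u j i' ∉ Y → ¬ (i = i' ∧ (i : ℕ) < T j) →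
      W (.a u j i) = W (.b u j i') := fun u j i i' h1 h2 h3 => hW _ _ h1 h2 ⟨rfl, rfl, h3⟩
  have hadjB : ∀ u j i i', Vx.b u j i ∉ Y → Vx.a u j i' ∉ Y → ¬ (i = i' ∧ (i : ℕ) < T j) →
      W (.b u j i) = W (.a u j i') := fun u j i i' h1 h2 h3 => hW _ _ h1 h2 ⟨rfl, rfl, h3⟩
  have htoothA : ∀ u j, (univ.filter (fun i : Fin r => Vx.b u j i ∈ Y)).card + 3 ≤ r → _ :=
    fun u j hh => tooth_half (m := T j) (univ.filter (fun i : Fin r => Vx.a u j i ∈ Y))
      (univ.filter (fun i : Fin r => Vx.b u j i ∈ Y)) (hAB u j) hh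
      (fun i => W (.a u j i)) (fun i => W (.b u j i))
      (fun i i' hi hi' hne => hadjA u j i i' (by simpa using hi) (by simpa using hi') hne)
  have htoothB : ∀ u j, (univ.filter (fun i : Fin r => Vx.a u j i ∈ Y)).card + 3 ≤ r → _ :=
    fun u j hh => tooth_half (m := T j) (univ.filter (fun i : Fin r => Vx.b u j i ∈ Y))
      (univ.filter (fun i : Fin r => Vx.a u j i ∈ Y)) (by have := hAB u j; omega) hh
      (fun i => W (.b u j i)) (fun i => W (.a u j i))
      (fun i i' hi hi' hne => hadjB u j i i' (by simpa using hi) (by simpa using hi') hne)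
  -- teeth without deleted vertices
  have hfree : ∀ u j, (∀ i, Vx.a u j i ∉ Y) → (∀ i, Vx.b u j i ∉ Y) →
      ∃ δ, (∀ i, W (.a u j i) = δ) ∧ (∀ i, W (.b u j i) = δ) := by
    intro u j ha hb
    have h1 : (univ.filter (fun i : Fin r => Vx.b u j i ∈ Y)) = ∅ := by
      rw [filter_eq_empty_iff]
      intro i _
      exact hb i
    have h2 : (univ.filter (fun i : Fin r => Vx.a u j i ∈ Y)) = ∅ := by
      rw [filter_eq_empty_iff]
      intro i _
      exact ha i
    rcases htoothA u j (by rw [h1, card_empty]; omega) with ⟨δ, hδ1, hδ2⟩ | ⟨_, i0, _, hi0, _⟩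
    · exact ⟨δ, fun i => hδ1 i (by simpa using ha i), fun i => hδ2 i (by simpa using hb i)⟩
    · exfalso
      obtain ⟨i, hi⟩ := exists_not_mem {i0} (by rw [card_singleton, Fintype.card_fin]; omega)
      rw [mem_singleton] at hi
      have := (hi0 i).2 hi
      rw [h2] at this
      simp at this
  have hno1 : ∀ δ, ¬ ((∀ i, Vx.a u0 j0 i ∉ Y → W (.a u0 j0 i) = δ) ∧
      (∀ i, Vx.b u0 j0 i ∉ Y → W (.b u0 j0 i) = δ)) := by
    rintro δ ⟨h1, h2⟩
    obtain ⟨i, hi, hi'⟩ := hno δ h1
    exact hi' (h2 i hi)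
  have hABu := hAB u0 j0
  by_cases hcase : (univ.filter (fun i : Fin r => Vx.b u0 j0 i ∈ Y)).card + 3 ≤ r
  · rcases htoothA u0 j0 hcase with ⟨δ, hδ1, hδ2⟩ | ⟨hQ, i0, him, hi0, hg⟩
    · exact absurd ⟨fun i hi => hδ1 i (by simpa using hi), fun i hi => hδ2 i (by simpa using hi)⟩
        (hno1 δ)
    -- `Y` is `A` minus a vertex, `z = b u0 j0 i0` is isolated
    have hYeq : Y = (univ.erase i0).image (fun i : Fin r => (Vx.a u0 j0 i : Vx U X r T)) := by
      symm
      apply eq_of_subset_of_card_le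
      · intro v hv
        rw [mem_image] at hv
        obtain ⟨i, hi, rfl⟩ := hv
        have := (hi0 i).2 (mem_erase.1 hi).1
        exact (mem_filter.1 this).2
      · rw [card_image_of_injective _ (hinjA u0 j0), card_erase_of_mem (mem_univ _), card_univ,
          Fintype.card_fin]
        omega
    have hYm : ∀ v, v ∈ Y ↔ ∃ i, i ≠ i0 ∧ v = Vx.a u0 j0 i := by
      intro v
      rw [hYeq, mem_image]
      constructor
      · rintro ⟨i, hi, rfl⟩
        exact ⟨i, (mem_erase.1 hi).1, rfl⟩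
      · rintro ⟨i, hi, rfl⟩
        exact ⟨i, mem_erase.2 ⟨hi, mem_univ _⟩, rfl⟩
    have hzY : (Vx.b u0 j0 i0 : Vx U X r T) ∉ Y := by
      rw [hYm]; rintro ⟨i, _, h⟩; simp at h
    have hins := card_insert_of_notMem hzY
    have hpY : (insert (Vx.b u0 j0 i0) Y).filter (fun v => isAS v = true) = Y := by
      rw [filter_insert]
      simp only [isAS, Bool.false_eq_true, if_false]
      rw [filter_eq_self]
      intro v hv
      obtain ⟨i, _, rfl⟩ := (hYm v).1 hv
      rfl
    have hqY : ((insert (Vx.b u0 j0 i0) Y).filter (fun v => isAS v = false)).card ≤ 1 := by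
      have := card_filter_add_card_filter_not (s := insert (Vx.b u0 j0 i0) Y)
        (fun v => isAS v = true)
      rw [hfl, hpY, hins] at this
      omega
    obtain ⟨ε, hε⟩ := vc_main hC hw (insert (Vx.b u0 j0 i0) Y) W
      (fun v v' hv hv' hadj => hW v v' (fun hh => hv (mem_insert_of_mem hh))
        (fun hh => hv' (mem_insert_of_mem hh)) hadj)
      (by
        intro u j
        by_cases huj : u = u0 ∧ j = j0
        · obtain ⟨rfl, rfl⟩ := huj
          refine ⟨W (.a u j i0), fun i hi => ?_, fun i hi => ?_⟩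
          · have : i = i0 := by
              by_contra hne
              exact hi (mem_insert_of_mem ((hYm _).2 ⟨i, hne, rfl⟩))
            rw [this]
          · apply hg
            rintro rfl
            exact hi (mem_insert_self _ _)
        · obtain ⟨δ, hδ1, hδ2⟩ := hfree u j (by
            intro i hi
            obtain ⟨i', _, h⟩ := (hYm _).1 hi
            simp only [Vx.a.injEq] at h
            exact huj ⟨h.1, h.2.1⟩) (by
            intro i hi
            obtain ⟨i', _, h⟩ := (hYm _).1 hi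
            simp at h)
          exact ⟨δ, fun i _ => hδ1 i, fun i _ => hδ2 i⟩)
      (by rw [hpY]; exact hY) (by omega) (by omega) (Or.inl (by omega))
    refine ⟨ε, fun v hv => ?_⟩
    by_cases hvz : v = Vx.b u0 j0 i0
    · subst hvz
      have hc : (Vx.c u0 ⟨(j0, i0), him⟩ : Vx U X r T) ∉ insert (Vx.b u0 j0 i0) Y := by
        rw [mem_insert, hYm]
        rintro (h | ⟨i, _, h⟩) <;> simp at h
      rw [hW (Vx.b u0 j0 i0) (Vx.c u0 ⟨(j0, i0), him⟩) hv
        (fun hh => hc (mem_insert_of_mem hh)) ⟨rfl, rfl⟩]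
      exact hε _ hc
    · exact hε v (by rw [mem_insert]; rintro (h | h); exacts [hvz h, hv h])
  · rcases htoothB u0 j0 (by omega) with ⟨δ, hδ1, hδ2⟩ | ⟨hQ, i0, him, hi0, hg⟩
    · exact absurd ⟨fun i hi => hδ2 i (by simpa using hi), fun i hi => hδ1 i (by simpa using hi)⟩
        (hno1 δ)
    have hYeq : Y = (univ.erase i0).image (fun i : Fin r => (Vx.b u0 j0 i : Vx U X r T)) := by
      symm
      apply eq_of_subset_of_card_le
      · intro v hv
        rw [mem_image] at hv
        obtain ⟨i, hi, rfl⟩ := hv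
        have := (hi0 i).2 (mem_erase.1 hi).1
        exact (mem_filter.1 this).2
      · rw [card_image_of_injective _ (hinjB u0 j0), card_erase_of_mem (mem_univ _), card_univ,
          Fintype.card_fin]
        omega
    have hYm : ∀ v, v ∈ Y ↔ ∃ i, i ≠ i0 ∧ v = Vx.b u0 j0 i := by
      intro v
      rw [hYeq, mem_image]
      constructor
      · rintro ⟨i, hi, rfl⟩
        exact ⟨i, (mem_erase.1 hi).1, rfl⟩
      · rintro ⟨i, hi, rfl⟩
        exact ⟨i, mem_erase.2 ⟨hi, mem_univ _⟩, rfl⟩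
    have hzY : (Vx.a u0 j0 i0 : Vx U X r T) ∉ Y := by
      rw [hYm]; rintro ⟨i, _, h⟩; simp at h
    have hins := card_insert_of_notMem hzY
    have hqY : (insert (Vx.a u0 j0 i0) Y).filter (fun v => isAS v = false) = Y := by
      rw [filter_insert]
      simp only [isAS, Bool.true_eq_false, if_false]
      rw [filter_eq_self]
      intro v hv
      obtain ⟨i, _, rfl⟩ := (hYm v).1 hv
      rfl
    have hpY : ((insert (Vx.a u0 j0 i0) Y).filter (fun v => isAS v = true)).card ≤ 1 := by
      have := card_filter_add_card_filter_not (s := insert (Vx.a u0 j0 i0) Y)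
        (fun v => isAS v = true)
      rw [hfl, hqY, hins] at this
      omega
    obtain ⟨ε, hε⟩ := vc_main hC hw (insert (Vx.a u0 j0 i0) Y) W
      (fun v v' hv hv' hadj => hW v v' (fun hh => hv (mem_insert_of_mem hh))
        (fun hh => hv' (mem_insert_of_mem hh)) hadj)
      (by
        intro u j
        by_cases huj : u = u0 ∧ j = j0
        · obtain ⟨rfl, rfl⟩ := huj
          refine ⟨W (.b u j i0), fun i hi => ?_, fun i hi => ?_⟩
          · apply hg
            rintro rfl
            exact hi (mem_insert_self _ _)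
          · have : i = i0 := by
              by_contra hne
              exact hi (mem_insert_of_mem ((hYm _).2 ⟨i, hne, rfl⟩))
            rw [this]
        · obtain ⟨δ, hδ1, hδ2⟩ := hfree u j (by
            intro i hi
            obtain ⟨i', _, h⟩ := (hYm _).1 hi
            simp at h) (by
            intro i hi
            obtain ⟨i', _, h⟩ := (hYm _).1 hi
            simp only [Vx.b.injEq] at h
            exact huj ⟨h.1, h.2.1⟩)
          exact ⟨δ, fun i _ => hδ1 i, fun i _ => hδ2 i⟩)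
      (by omega) (by rw [hqY]; exact hY) (by omega) (Or.inr (by omega))
    refine ⟨ε, fun v hv => ?_⟩
    by_cases hvz : v = Vx.a u0 j0 i0
    · subst hvz
      have hs : (Vx.s ⟨(j0, i0), him⟩ (w ⟨(j0, i0), him⟩ u0) : Vx U X r T) ∉
          insert (Vx.a u0 j0 i0) Y := by
        rw [mem_insert, hYm]
        rintro (h | ⟨i, _, h⟩) <;> simp at h
      rw [hW (Vx.a u0 j0 i0) (Vx.s ⟨(j0, i0), him⟩ (w ⟨(j0, i0), him⟩ u0)) hv
        (fun hh => hs (mem_insert_of_mem hh)) ⟨rfl, rfl⟩]
      exact hε _ hs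
    · exact hε v (by rw [mem_insert]; rintro (h | h); exacts [hvz h, hv h])

end Pool.Agent.H24.SC
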